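import Pool.Agent.SWT49.Perm

/-!
# The primitive that is odd under the reversal of the order
-/

set_option autoImplicit false

namespace Pool.Agent.SWT49

open Equiv

/-- the reversal of the order -/
def w0 (n : ℕ) : Perm (Fin (n + 1)) := Fin.revPerm

lemma w0_mul_w0 (n : ℕ) : w0 n * w0 n = 1 := by
  ext x; simp [w0]

lemma w0_mul_s {n : ℕ} (i : Fin n) : w0 n * s i = s i.rev * w0 n := by
  have h : w0 n * s i = swap (w0 n i.castSucc) (w0 n i.succ) * w0 n := by
    unfold s
    rw [mul_swap_eq_swap_mul]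
  have h1 : w0 n i.castSucc = i.rev.succ := by unfold w0; simp [Fin.rev_castSucc]
  have h2 : w0 n i.succ = i.rev.castSucc := by unfold w0; simp [Fin.rev_succ]
  rw [h, h1, h2, swap_comm]; rfl

section Rev

variable {n : ℕ} {M : Type*} [AddCommGroup M] {X : Type*} [MulAction (Perm (Fin (n + 1))) X]

/-- An invariant function that is odd under the reversal is zero. -/
lemma zero_of_odd (hM : ∀ v : M, v + v = 0 → v = 0) {F : X → M}
    (h1 : ∀ x (i : Fin n), F (s i • x) = F x) (h2 : ∀ x, F (w0 n • x) = - F x) (x : X) : F x = 0 := by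
  have h3 : F (w0 n • x) = F x := by
    apply perm_induction (P := fun g => F (g • x) = F x)
    · rw [one_smul]
    · intro g i hg
      rw [mul_smul, h1, hg]
  apply hM
  have := h2 x
  rw [h3] at this
  nth_rewrite 1 [this]
  abel

/-- **Odd levels.** If `2` is bijective on `M` and the closed 1-form `c` is odd under the reversal,
`c (w0 • x) (rev i) = - c x i`, then there is exactly one function `F` with
`F x - F (s i • x) = c x i` and `F (w0 • x) = - F x`. -/
theorem exists_odd_primitive (hM : ∀ v : M, ∃ w, w + w = v) (hM' : ∀ v : M, v + v = 0 → v = 0)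
    {c : X → Fin n → M} (hc : Closed c) (hr : ∀ x (i : Fin n), c (w0 n • x) i.rev = - c x i) :
    ∃! F : X → M, (∀ x i, F x - F (s i • x) = c x i) ∧ ∀ x, F (w0 n • x) = - F x := by
  obtain ⟨I, h0, h1, h2⟩ := exists_integral hc
  have hs : ∀ x (i : Fin n), I (s i) x = - c x i := by
    intro x i
    have := h1 1 x i
    rw [h0, mul_one, one_smul, zero_sub] at this
    rw [← this, neg_neg]
  have hw : ∀ x (i : Fin n), I (w0 n) (s i • x) = I (w0 n) x + (c x i + c x i) := by
    intro x i
    have e1 := h2 (w0 n) (s i) x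
    rw [w0_mul_s] at e1
    have e2 := h1 (w0 n) x i.rev
    rw [hr] at e2
    rw [hs] at e1
    have e3 : I (w0 n) (s i • x) = I (s i.rev * w0 n) x + c x i := by rw [e1]; abel
    have e4 : I (s i.rev * w0 n) x = I (w0 n) x + c x i := by
      have : I (s i.rev * w0 n) x = I (w0 n) x - (I (w0 n) x - I (s i.rev * w0 n) x) := by abel
      rw [this, e2]; abel
    rw [e3, e4]; abel
  have hww : ∀ x, I (w0 n) (w0 n • x) = - I (w0 n) x := by
    intro x
    have := h2 (w0 n) (w0 n) x
    rw [w0_mul_w0, h0] at this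
    exact (neg_eq_of_add_eq_zero_left this.symm).symm
  choose hf hhf using hM
  have hfu : ∀ v w : M, v + v = w + w → v = w := by
    intro v w h
    have := hM' (v - w) (by
      have : v - w + (v - w) = (v + v) - (w + w) := by abel
      rw [this, h, sub_self])
    exact sub_eq_zero.mp this
  refine ⟨fun x => - hf (I (w0 n) x), ⟨fun x i => ?_, fun x => ?_⟩, ?_⟩
  · apply hfu
    have e1 := hhf (I (w0 n) x)
    have e2 := hhf (I (w0 n) (s i • x))
    have e3 := hw x i
    show - hf (I (w0 n) x) - - hf (I (w0 n) (s i • x)) + (- hf (I (w0 n) x) - - hf (I (w0 n) (s i • x))) = _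
    calc - hf (I (w0 n) x) - - hf (I (w0 n) (s i • x)) +
          (- hf (I (w0 n) x) - - hf (I (w0 n) (s i • x)))
        = (hf (I (w0 n) (s i • x)) + hf (I (w0 n) (s i • x))) -
          (hf (I (w0 n) x) + hf (I (w0 n) x)) := by abel
      _ = c x i + c x i := by rw [e1, e2, e3]; abel
  · apply hfu
    have e1 := hhf (I (w0 n) x)
    have e2 := hhf (I (w0 n) (w0 n • x))
    show - hf (I (w0 n) (w0 n • x)) + - hf (I (w0 n) (w0 n • x)) =
      - - hf (I (w0 n) x) + - - hf (I (w0 n) x)
    calc - hf (I (w0 n) (w0 n • x)) + - hf (I (w0 n) (w0 n • x))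
        = - (hf (I (w0 n) (w0 n • x)) + hf (I (w0 n) (w0 n • x))) := by abel
      _ = hf (I (w0 n) x) + hf (I (w0 n) x) := by rw [e2, hww, e1, neg_neg]
      _ = - - hf (I (w0 n) x) + - - hf (I (w0 n) x) := by rw [neg_neg]
  · rintro F' ⟨hF1, hF2⟩
    funext x
    apply hfu
    have e1 := primitive_integral h0 h1 hF1 (w0 n) x
    rw [hF2] at e1
    have e2 := hhf (I (w0 n) x)
    show F' x + F' x = - hf (I (w0 n) x) + - hf (I (w0 n) x)
    have e3 : I (w0 n) x = - (F' x + F' x) := by
      have : I (w0 n) x = - F' x - F' x := by rw [e1]; abel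
      rw [this]; abel
    have e4 : - hf (I (w0 n) x) + - hf (I (w0 n) x) = - (hf (I (w0 n) x) + hf (I (w0 n) x)) := by abel
    rw [e4, e2, e3, neg_neg]

end Rev

end Pool.Agent.SWT49
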