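import Mathlib

/-!
# Closed 1-forms on the adjacent transpositions of a finite linear order are exact

`s i` is the transposition of `i` and `i + 1`. A function `c g i` (the difference along the edge
from `g` to `s i * g` of the Cayley graph of the symmetric group) that changes its sign with the
direction of the edge and is closed on the squares (far commutation) and on the hexagons (braid
relations) is the difference of a function on the group.
-/

set_option autoImplicit false

namespace Pool.Agent.SWT49

open Equiv

/-- the adjacent transposition of `i` and `i + 1` -/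
def s {n : ℕ} (i : Fin n) : Perm (Fin (n + 1)) := swap i.castSucc i.succ

lemma s_mul_s {n : ℕ} (i : Fin n) : s i * s i = 1 := swap_mul_self _ _

lemma s_inv {n : ℕ} (i : Fin n) : (s i)⁻¹ = s i := swap_inv _ _

lemma s_cancel {n : ℕ} (i : Fin n) (g : Perm (Fin (n + 1))) : s i * (s i * g) = g := by
  rw [← mul_assoc, s_mul_s, one_mul]

/-- far transpositions commute -/
lemma s_far {n : ℕ} {i j : Fin n} (h : i.val + 1 < j.val) : s i * s j = s j * s i := by
  have h1 : i.castSucc ≠ j.castSucc := by intro e; have := congrArg Fin.val e; simp at this; omega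
  have h2 : i.castSucc ≠ j.succ := by intro e; have := congrArg Fin.val e; simp at this; omega
  have h3 : i.succ ≠ j.castSucc := by intro e; have := congrArg Fin.val e; simp at this; omega
  have h4 : i.succ ≠ j.succ := by intro e; have := congrArg Fin.val e; simp at this; omega
  have hd : Perm.Disjoint (s i) (s j) := by
    intro x
    unfold s
    by_cases hx : x = i.castSucc ∨ x = i.succ
    · right
      rcases hx with rfl | rfl
      · exact swap_apply_of_ne_of_ne h1 h2
      · exact swap_apply_of_ne_of_ne h3 h4
    · left
      push Not at hx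
      exact swap_apply_of_ne_of_ne hx.1 hx.2
  exact hd.commute.eq

/-- the braid relation -/
lemma s_braid {n : ℕ} {i j : Fin n} (h : i.val + 1 = j.val) :
    s i * s j * s i = s j * s i * s j := by
  have e : j.castSucc = i.succ := by ext; simp [← h]
  have h1 : i.castSucc ≠ i.succ := by intro e; have := congrArg Fin.val e; simp at this
  have h2 : i.castSucc ≠ j.succ := by intro e; have := congrArg Fin.val e; simp at this; omega
  have h3 : i.succ ≠ j.succ := by intro e; have := congrArg Fin.val e; simp at this; omega
  unfold s
  rw [e]
  ext x
  simp only [Perm.mul_apply]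
  by_cases x1 : x = i.castSucc
  · subst x1
    rw [swap_apply_left, swap_apply_left, swap_apply_of_ne_of_ne h2.symm h3.symm,
      swap_apply_of_ne_of_ne h1 h2, swap_apply_left, swap_apply_left]
  · by_cases x2 : x = i.succ
    · subst x2
      rw [swap_apply_right, swap_apply_of_ne_of_ne h1 h2, swap_apply_left, swap_apply_left,
        swap_apply_of_ne_of_ne h2.symm h3.symm, swap_apply_right]
    · by_cases x3 : x = j.succ
      · subst x3
        rw [swap_apply_of_ne_of_ne h2.symm h3.symm, swap_apply_right, swap_apply_right,
          swap_apply_of_ne_of_ne h1 h2]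
      · rw [swap_apply_of_ne_of_ne x1 x2, swap_apply_of_ne_of_ne x2 x3, swap_apply_of_ne_of_ne x1 x2,
          swap_apply_of_ne_of_ne x2 x3]

/-- a descent: the value `i + 1` comes before the value `i` -/
def Desc {n : ℕ} (g : Perm (Fin (n + 1))) (i : Fin n) : Prop := g.symm i.succ < g.symm i.castSucc

lemma symm_s_mul {n : ℕ} (g : Perm (Fin (n + 1))) (i : Fin n) (x : Fin (n + 1)) :
    (s i * g).symm x = g.symm (s i x) := by
  rw [Equiv.symm_apply_eq, Perm.mul_apply, Equiv.apply_symm_apply]
  unfold s
  rw [swap_apply_self]

lemma s_castSucc {n : ℕ} (i : Fin n) : s i i.castSucc = i.succ := swap_apply_left _ _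
lemma s_succ {n : ℕ} (i : Fin n) : s i i.succ = i.castSucc := swap_apply_right _ _

lemma desc_s_mul {n : ℕ} {g : Perm (Fin (n + 1))} {i : Fin n} (h : ¬ Desc g i) :
    Desc (s i * g) i := by
  unfold Desc at h ⊢
  rw [symm_s_mul, symm_s_mul, s_castSucc, s_succ]
  have hne : g.symm i.castSucc ≠ g.symm i.succ := by
    intro e
    have := congrArg Fin.val (g.symm.injective e)
    simp at this
  exact lt_of_le_of_ne (not_lt.mp h) hne

/-- a permutation without descents is the identity -/
lemma eq_one {n : ℕ} {g : Perm (Fin (n + 1))} (h : ∀ i, ¬ Desc g i) : g = 1 := by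
  have hm : StrictMono g.symm := by
    rw [Fin.strictMono_iff_lt_succ]
    intro i
    have hne : g.symm i.castSucc ≠ g.symm i.succ := by
      intro e
      have := congrArg Fin.val (g.symm.injective e)
      simp at this
    exact lt_of_le_of_ne (not_lt.mp (h i)) hne
  have h1 : g.symm = 1 := by
    have e : (hm.orderIsoOfSurjective _ g.symm.surjective) = OrderIso.refl _ := Subsingleton.elim _ _
    ext x
    have := congrArg (fun f : Fin (n + 1) ≃o Fin (n + 1) => ((f x : Fin (n + 1)) : ℕ)) e
    simpa using this
  have h2 : g⁻¹ = 1 := h1
  exact inv_eq_one.mp h2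

/-- the measure that grows at a descent -/
def mu {n : ℕ} (g : Perm (Fin (n + 1))) : ℕ := ∑ a : Fin (n + 1), a.val * (g.symm a).val

lemma mu_le {n : ℕ} (g : Perm (Fin (n + 1))) : mu g ≤ (n + 1) * ((n + 1) * (n + 1)) := by
  unfold mu
  calc ∑ a : Fin (n + 1), a.val * (g.symm a).val ≤ ∑ _a : Fin (n + 1), (n + 1) * (n + 1) :=
        Finset.sum_le_sum fun a _ => Nat.mul_le_mul a.2.le (g.symm a).2.le
    _ = (n + 1) * ((n + 1) * (n + 1)) := by simp

lemma mu_lt {n : ℕ} {g : Perm (Fin (n + 1))} {i : Fin n} (h : Desc g i) : mu g < mu (s i * g) := by
  have e1 : mu (s i * g) = ∑ a : Fin (n + 1), (s i a).val * (g.symm a).val := by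
    unfold mu
    rw [← Equiv.sum_comp (s i)]
    refine Finset.sum_congr rfl fun a _ => ?_
    rw [symm_s_mul]
    have : s i (s i a) = a := by unfold s; rw [swap_apply_self]
    rw [this]
  rw [e1]
  unfold mu
  have hne : i.castSucc ≠ i.succ := by intro e; have := congrArg Fin.val e; simp at this
  have split : ∀ f : Fin (n + 1) → ℕ, ∑ a, f a =
      f i.castSucc + (f i.succ + ∑ a ∈ ((Finset.univ.erase i.castSucc).erase i.succ), f a) := by
    intro f
    rw [← Finset.add_sum_erase _ f (Finset.mem_univ i.castSucc),
      ← Finset.add_sum_erase _ f (Finset.mem_erase.mpr ⟨hne.symm, Finset.mem_univ i.succ⟩)]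
  rw [split, split]
  have hrest : ∑ a ∈ ((Finset.univ.erase i.castSucc).erase i.succ), (s i a).val * (g.symm a).val =
      ∑ a ∈ ((Finset.univ.erase i.castSucc).erase i.succ), a.val * (g.symm a).val := by
    refine Finset.sum_congr rfl fun a ha => ?_
    rw [Finset.mem_erase, Finset.mem_erase] at ha
    have : s i a = a := by unfold s; exact swap_apply_of_ne_of_ne ha.2.1 ha.1
    rw [this]
  rw [hrest, s_castSucc, s_succ]
  have hd : (g.symm i.succ).val < (g.symm i.castSucc).val := h
  simp only [Fin.val_castSucc, Fin.val_succ]
  nlinarith

section Pot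

variable {n : ℕ} {M : Type*} [AddCommGroup M]

/-- The value of the potential along descending paths. -/
inductive Val (c : Perm (Fin (n + 1)) → Fin n → M) : Perm (Fin (n + 1)) → M → Prop
  | one : Val c 1 0
  | step (g : Perm (Fin (n + 1))) (i : Fin n) (v : M) :
      Desc g i → Val c (s i * g) v → Val c g (v + c g i)

lemma val_or {c : Perm (Fin (n + 1)) → Fin n → M} {g : Perm (Fin (n + 1))} {v : M}
    (h : Val c g v) : (g = 1 ∧ v = 0) ∨
      ∃ i w, Desc g i ∧ Val c (s i * g) w ∧ v = w + c g i := by
  cases h with
  | one => exact Or.inl ⟨rfl, rfl⟩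
  | step _ i w h1 h2 => exact Or.inr ⟨i, w, h1, h2, rfl⟩

lemma not_desc_one (i : Fin n) : ¬ Desc (1 : Perm (Fin (n + 1))) i := by
  intro h
  have h1 : (i.succ : Fin (n + 1)) < i.castSucc := h
  have h2 : i.succ.val < i.castSucc.val := h1
  simp at h2

/-- A 1-form closed on squares and hexagons: every permutation has exactly one value. -/
lemma val_unique (c : Perm (Fin (n + 1)) → Fin n → M)
    (far : ∀ g (i j : Fin n), i.val + 1 < j.val →
      c g i + c (s i * g) j = c g j + c (s j * g) i)
    (hex : ∀ g (i j : Fin n), i.val + 1 = j.val →
      c g i + c (s i * g) j + c (s j * (s i * g)) i =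
        c g j + c (s j * g) i + c (s i * (s j * g)) j) :
    ∀ (k : ℕ) (g : Perm (Fin (n + 1))), (n + 1) * ((n + 1) * (n + 1)) - mu g = k →
      ∃ v, Val c g v ∧ ∀ w, Val c g w → w = v := by
  intro k
  induction k using Nat.strong_induction_on with
  | _ k ih =>
    intro g hk
    by_cases hg : ∃ i, Desc g i
    · obtain ⟨i0, hi0⟩ := hg
      -- the unique value below a descent
      have sub : ∀ (g' : Perm (Fin (n + 1))), mu g < mu g' →
          ∃ v, Val c g' v ∧ ∀ w, Val c g' w → w = v := by
        intro g' hg'
        have h1 := mu_le g'
        exact ih _ (by omega) g' rfl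
      -- comparison of two descents
      have key : ∀ i j : Fin n, i.val < j.val → Desc g i → Desc g j → ∀ v w,
          Val c (s i * g) v → Val c (s j * g) w → v + c g i = w + c g j := by
        intro i j hij hi hj v w hv hw
        obtain ⟨vi, _, hvi⟩ := sub (s i * g) (mu_lt hi)
        obtain ⟨wj, _, hwj⟩ := sub (s j * g) (mu_lt hj)
        rcases Nat.lt_or_ge (i.val + 1) j.val with hf | hf
        · -- square
          have hne1 : s i j.castSucc = j.castSucc := by
            unfold s
            apply swap_apply_of_ne_of_ne
            · intro e; have := congrArg Fin.val e; simp at this; omega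
            · intro e; have := congrArg Fin.val e; simp at this; omega
          have hne2 : s i j.succ = j.succ := by
            unfold s
            apply swap_apply_of_ne_of_ne
            · intro e; have := congrArg Fin.val e; simp at this; omega
            · intro e; have := congrArg Fin.val e; simp at this; omega
          have hne3 : s j i.castSucc = i.castSucc := by
            unfold s
            apply swap_apply_of_ne_of_ne
            · intro e; have := congrArg Fin.val e; simp at this; omega
            · intro e; have := congrArg Fin.val e; simp at this; omega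
          have hne4 : s j i.succ = i.succ := by
            unfold s
            apply swap_apply_of_ne_of_ne
            · intro e; have := congrArg Fin.val e; simp at this; omega
            · intro e; have := congrArg Fin.val e; simp at this; omega
          have d1 : Desc (s i * g) j := by
            unfold Desc; rw [symm_s_mul, symm_s_mul, hne1, hne2]; exact hj
          have d2 : Desc (s j * g) i := by
            unfold Desc; rw [symm_s_mul, symm_s_mul, hne3, hne4]; exact hi
          obtain ⟨u, hu, _⟩ := sub (s j * (s i * g)) ((mu_lt hi).trans (mu_lt d1))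
          have hu' : Val c (s i * (s j * g)) u := by
            rw [← mul_assoc, s_far hf, mul_assoc]; exact hu
          have e1 := hvi _ hv
          have e2 := hvi _ (Val.step _ _ _ d1 hu)
          have e3 := hwj _ hw
          have e4 := hwj _ (Val.step _ _ _ d2 hu')
          rw [e1, e3, ← e2, ← e4]
          have := far g i j hf
          calc u + c (s i * g) j + c g i = u + (c g i + c (s i * g) j) := by abel
            _ = u + (c g j + c (s j * g) i) := by rw [this]
            _ = u + c (s j * g) i + c g j := by abel
        · -- hexagon
          have hb : i.val + 1 = j.val := by omega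
          have ej : j.castSucc = i.succ := by ext; simp [← hb]
          have hi' : g.symm i.succ < g.symm i.castSucc := hi
          have hj' : g.symm j.succ < g.symm i.succ := by
            have : g.symm j.succ < g.symm j.castSucc := hj
            rwa [ej] at this
          have n1 : s i j.succ = j.succ := by
            unfold s
            apply swap_apply_of_ne_of_ne
            · intro e; have := congrArg Fin.val e; simp at this; omega
            · intro e; have := congrArg Fin.val e; simp at this; omega
          have n2 : s j i.castSucc = i.castSucc := by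
            unfold s
            apply swap_apply_of_ne_of_ne
            · intro e; have := congrArg Fin.val e; simp at this; omega
            · intro e; have := congrArg Fin.val e; simp at this; omega
          have n3 : s j i.succ = j.succ := by rw [← ej]; exact s_castSucc j
          have n4 : s j j.succ = i.succ := by rw [← ej]; exact s_succ j
          -- along i, j, i
          have d1 : Desc (s i * g) j := by
            unfold Desc
            rw [symm_s_mul, symm_s_mul, n1, ej, s_succ]
            exact hj'.trans hi'
          have d2 : Desc (s j * (s i * g)) i := by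
            unfold Desc
            rw [symm_s_mul, symm_s_mul, symm_s_mul, symm_s_mul, n3, n2, n1, s_castSucc]
            exact hj'
          -- along j, i, j
          have d3 : Desc (s j * g) i := by
            unfold Desc
            rw [symm_s_mul, symm_s_mul, n3, n2]
            exact hj'.trans hi'
          have d4 : Desc (s i * (s j * g)) j := by
            unfold Desc
            rw [symm_s_mul, symm_s_mul, symm_s_mul, symm_s_mul, n1, ej, s_succ i, n2, n4]
            exact hi'
          have m1 := mu_lt hi
          have m2 := mu_lt d1
          have m3 := mu_lt d2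
          obtain ⟨u, hu, _⟩ := sub (s i * (s j * (s i * g))) (m1.trans (m2.trans m3))
          have hu' : Val c (s j * (s i * (s j * g))) u := by
            have e : s j * (s i * (s j * g)) = s i * (s j * (s i * g)) := by
              have := s_braid hb
              calc s j * (s i * (s j * g)) = (s j * s i * s j) * g := by simp only [mul_assoc]
                _ = (s i * s j * s i) * g := by rw [this]
                _ = s i * (s j * (s i * g)) := by simp only [mul_assoc]
            rw [e]; exact hu
          have e1 := hvi _ hv
          have e2 := hvi _ (Val.step _ _ _ d1 (Val.step _ _ _ d2 hu))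
          have e3 := hwj _ hw
          have e4 := hwj _ (Val.step _ _ _ d3 (Val.step _ _ _ d4 hu'))
          rw [e1, e3, ← e2, ← e4]
          have := hex g i j hb
          calc u + c (s j * (s i * g)) i + c (s i * g) j + c g i
              = u + (c g i + c (s i * g) j + c (s j * (s i * g)) i) := by abel
            _ = u + (c g j + c (s j * g) i + c (s i * (s j * g)) j) := by rw [this]
            _ = u + c (s i * (s j * g)) j + c (s j * g) i + c g j := by abel
      obtain ⟨v0, hv0, hv0u⟩ := sub (s i0 * g) (mu_lt hi0)
      refine ⟨v0 + c g i0, Val.step _ _ _ hi0 hv0, fun w hw => ?_⟩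
      rcases val_or hw with ⟨h1, _⟩ | ⟨i, w', h1, h2, h3⟩
      · exact absurd (h1 ▸ hi0) (not_desc_one i0)
      · rw [h3]
        rcases lt_trichotomy i.val i0.val with h | h | h
        · exact key i i0 h h1 hi0 _ _ h2 hv0
        · have : i = i0 := Fin.ext h
          subst this
          rw [hv0u _ h2]
        · exact (key i0 i h hi0 h1 _ _ hv0 h2).symm
    · push Not at hg
      have hg1 := eq_one hg
      subst hg1
      refine ⟨0, Val.one, fun w hw => ?_⟩
      rcases val_or hw with ⟨_, h⟩ | ⟨i, w', h1, _, _⟩
      · exact h
      · exact absurd h1 (hg i)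

/-- **Integration of closed 1-forms on the permutations** (Cayley graph of the adjacent
transpositions, left multiplication). -/
theorem exists_potential (c : Perm (Fin (n + 1)) → Fin n → M)
    (inv : ∀ g i, c (s i * g) i = - c g i)
    (far : ∀ g (i j : Fin n), i.val + 1 < j.val →
      c g i + c (s i * g) j = c g j + c (s j * g) i)
    (hex : ∀ g (i j : Fin n), i.val + 1 = j.val →
      c g i + c (s i * g) j + c (s j * (s i * g)) i =
        c g j + c (s j * g) i + c (s i * (s j * g)) j) :
    ∃ G : Perm (Fin (n + 1)) → M, G 1 = 0 ∧ ∀ g i, G g - G (s i * g) = c g i := by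
  have h := fun g => val_unique c far hex _ g rfl
  choose G hG hGu using h
  refine ⟨G, (hGu 1 0 Val.one).symm, fun g i => ?_⟩
  by_cases hd : Desc g i
  · have := hGu g _ (Val.step g i _ hd (hG (s i * g)))
    rw [← this]; abel
  · have hd' := desc_s_mul hd
    have e := hGu (s i * g) (G g + c (s i * g) i) (Val.step _ i _ hd' (by rw [s_cancel]; exact hG g))
    rw [← e, inv]; abel

/-- The adjacent transpositions generate: a property that holds at `1` and is stable under left
multiplication by `s i` holds everywhere. -/
lemma perm_induction {P : Perm (Fin (n + 1)) → Prop} (h1 : P 1)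
    (hs : ∀ g i, P g → P (s i * g)) : ∀ g, P g := by
  have key : ∀ (k : ℕ) (g : Perm (Fin (n + 1))), (n + 1) * ((n + 1) * (n + 1)) - mu g = k → P g := by
    intro k
    induction k using Nat.strong_induction_on with
    | _ k ih =>
      intro g hk
      by_cases hg : ∃ i, Desc g i
      · obtain ⟨i, hi⟩ := hg
        have h2 := mu_lt hi
        have h3 := mu_le (s i * g)
        have := hs (s i * g) i (ih _ (by omega) (s i * g) rfl)
        rwa [s_cancel] at this
      · push Not at hg
        rw [eq_one hg]; exact h1
  exact fun g => key _ g rfl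

/-- Two potentials of the same 1-form differ by a constant. -/
lemma potential_unique {G G' : Perm (Fin (n + 1)) → M}
    (h : ∀ g i, G g - G (s i * g) = G' g - G' (s i * g)) (h1 : G 1 = G' 1) : G = G' := by
  have : ∀ g, G g = G' g := by
    apply perm_induction (P := fun g => G g = G' g) h1
    intro g i hg
    have := h g i
    rw [hg] at this
    exact sub_right_inj.mp this
  exact funext this

end Pot

/-! ### actions -/

section Act

variable {n : ℕ} {M : Type*} [AddCommGroup M] {X : Type*} [MulAction (Perm (Fin (n + 1))) X]

/-- A closed 1-form for an action of the symmetric group. -/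
structure Closed (c : X → Fin n → M) : Prop where
  inv : ∀ x i, c (s i • x) i = - c x i
  far : ∀ x (i j : Fin n), i.val + 1 < j.val →
    c x i + c (s i • x) j = c x j + c (s j • x) i
  hex : ∀ x (i j : Fin n), i.val + 1 = j.val →
    c x i + c (s i • x) j + c (s j • s i • x) i = c x j + c (s j • x) i + c (s i • s j • x) j

/-- The integral of a closed 1-form along the path from `x` to `g • x`: there is exactly one
function `I g x` with `I 1 x = 0` and `I g x - I (s i * g) x = c (g • x) i`; it is a cocycle. -/
theorem exists_integral {c : X → Fin n → M} (hc : Closed c) :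
    ∃ I : Perm (Fin (n + 1)) → X → M, (∀ x, I 1 x = 0) ∧
      (∀ g x i, I g x - I (s i * g) x = c (g • x) i) ∧
      (∀ g h x, I (g * h) x = I g (h • x) + I h x) := by
  have h : ∀ x : X, ∃ G : Perm (Fin (n + 1)) → M, G 1 = 0 ∧
      ∀ g i, G g - G (s i * g) = c (g • x) i := by
    intro x
    apply exists_potential (fun g i => c (g • x) i)
    · intro g i
      have := hc.inv (g • x) i
      rwa [← mul_smul] at this
    · intro g i j hij
      have := hc.far (g • x) i j hij
      rwa [← mul_smul, ← mul_smul] at this
    · intro g i j hij
      have := hc.hex (g • x) i j hij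
      rwa [← mul_smul, ← mul_smul, ← mul_smul, ← mul_smul] at this
  choose I hI1 hI using h
  refine ⟨fun g x => I x g, hI1, fun g x i => hI x g i, fun g h x => ?_⟩
  have e := potential_unique (n := n) (M := M) (G := fun g => I x (g * h) - I x h)
    (G' := fun g => I (h • x) g) (fun g i => by
      have h1 := hI x (g * h) i
      have h2 := hI (h • x) g i
      rw [← mul_smul] at h2
      rw [h2, ← h1, mul_assoc]
      abel) (by simp only [one_mul, sub_self]; exact (hI1 _).symm)
  have := congrFun e g
  show I x (g * h) = I (h • x) g + I x h
  rw [← this]; abel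

/-- A closed 1-form is the difference of a function as soon as its integral vanishes on the
stabilisers: `F x - F (s i • x) = c x i`. -/
theorem exists_primitive {c : X → Fin n → M} {I : Perm (Fin (n + 1)) → X → M}
    (h1 : ∀ g x i, I g x - I (s i * g) x = c (g • x) i)
    (h2 : ∀ g h x, I (g * h) x = I g (h • x) + I h x)
    (hst : ∀ (x : X) (g : Perm (Fin (n + 1))), g • x = x → I g x = 0) :
    ∃ F : X → M, ∀ x i, F x - F (s i • x) = c x i := by
  classical
  -- a base point of every orbit
  let r : X → X := fun x => Quotient.out (s := MulAction.orbitRel (Perm (Fin (n + 1))) X)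
    (Quotient.mk (MulAction.orbitRel (Perm (Fin (n + 1))) X) x)
  have hr : ∀ x, ∃ g : Perm (Fin (n + 1)), g • r x = x := by
    intro x
    have h : (MulAction.orbitRel (Perm (Fin (n + 1))) X).r (r x) x :=
      Quotient.exact (s := MulAction.orbitRel (Perm (Fin (n + 1))) X) (Quotient.out_eq _)
    have h' := (MulAction.orbitRel (Perm (Fin (n + 1))) X).iseqv.symm h
    exact h'
  have hrs : ∀ x (g : Perm (Fin (n + 1))), r (g • x) = r x := by
    intro x g
    have : (Quotient.mk (MulAction.orbitRel (Perm (Fin (n + 1))) X) (g • x)) =
        Quotient.mk (MulAction.orbitRel (Perm (Fin (n + 1))) X) x :=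
      Quotient.sound (s := MulAction.orbitRel (Perm (Fin (n + 1))) X) ⟨g, rfl⟩
    show Quotient.out _ = Quotient.out _
    rw [this]
  choose p hp using hr
  have hwd : ∀ (x : X) (g h : Perm (Fin (n + 1))), g • x = h • x → I g x = I h x := by
    intro x g h hgh
    have h3 : (h⁻¹ * g) • x = x := by rw [mul_smul, hgh, inv_smul_smul]
    have h4 := hst x _ h3
    have h5 := h2 h (h⁻¹ * g) x
    rw [h3, h4, add_zero, mul_inv_cancel_left] at h5
    exact h5
  refine ⟨fun x => I (p x) (r x), fun x i => ?_⟩
  show I (p x) (r x) - I (p (s i • x)) (r (s i • x)) = c x i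
  rw [hrs x (s i)]
  have e : (p (s i • x)) • r x = (s i * p x) • r x := by
    have := hp (s i • x)
    rw [hrs] at this
    rw [this, mul_smul, hp]
  rw [hwd _ _ _ e, h1, hp]

/-- Two primitives of the same 1-form differ by an invariant function. -/
lemma primitive_unique {F F' : X → M}
    (h : ∀ x (i : Fin n), F x - F (s i • x) = F' x - F' (s i • x)) :
    ∀ (g : Perm (Fin (n + 1))) x, F (g • x) - F' (g • x) = F x - F' x := by
  intro g x
  apply perm_induction (P := fun g => F (g • x) - F' (g • x) = F x - F' x)
  · rw [one_smul]
  · intro g i hg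
    have h1 := h (g • x) i
    rw [← mul_smul] at h1
    have h2 : F ((s i * g) • x) - F' ((s i * g) • x) = F (g • x) - F' (g • x) := by
      have h3 : F (g • x) - F' (g • x) = F ((s i * g) • x) - F' ((s i * g) • x) := by
        rw [sub_eq_sub_iff_add_eq_add] at h1 ⊢
        rw [add_comm] at h1
        rw [← sub_eq_zero] at h1 ⊢
        rw [← h1]; abel
      exact h3.symm
    rw [h2, hg]

/-- A primitive computes the integral. -/
lemma primitive_integral {c : X → Fin n → M} {I : Perm (Fin (n + 1)) → X → M} (h0 : ∀ x, I 1 x = 0)
    (h1 : ∀ g x i, I g x - I (s i * g) x = c (g • x) i) {F : X → M}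
    (hF : ∀ x i, F x - F (s i • x) = c x i) (g : Perm (Fin (n + 1))) (x : X) :
    F (g • x) = F x + I g x := by
  apply perm_induction (P := fun g => F (g • x) = F x + I g x)
  · rw [one_smul, h0, add_zero]
  · intro g i hg
    have e1 := hF (g • x) i
    have e2 := h1 g x i
    rw [← mul_smul] at e1
    have e3 : F ((s i * g) • x) = F (g • x) - c (g • x) i := by rw [← e1]; abel
    rw [e3, hg, ← e2]; abel

/-- On the stabiliser of `x` the integral is a homomorphism. -/
lemma integral_mul {I : Perm (Fin (n + 1)) → X → M}
    (h2 : ∀ g h x, I (g * h) x = I g (h • x) + I h x) {x : X} {g h : Perm (Fin (n + 1))}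
    (hh : h • x = x) : I (g * h) x = I g x + I h x := by
  rw [h2, hh]

lemma integral_pow {I : Perm (Fin (n + 1)) → X → M} (h0 : ∀ x, I 1 x = 0)
    (h2 : ∀ g h x, I (g * h) x = I g (h • x) + I h x) {x : X} {g : Perm (Fin (n + 1))}
    (hg : g • x = x) (k : ℕ) : I (g ^ k) x = k • I g x := by
  induction k with
  | zero => rw [pow_zero, h0, zero_smul]
  | succ k ih => rw [pow_succ, integral_mul h2 hg, ih, succ_nsmul]

lemma integral_inv {I : Perm (Fin (n + 1)) → X → M} (h0 : ∀ x, I 1 x = 0)
    (h2 : ∀ g h x, I (g * h) x = I g (h • x) + I h x) (g : Perm (Fin (n + 1))) (x : X) :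
    I g⁻¹ (g • x) = - I g x := by
  have := h2 g⁻¹ g x
  rw [inv_mul_cancel, h0] at this
  exact (neg_eq_of_add_eq_zero_left this.symm).symm

/-- If `M` has no element of order two, the integral vanishes on the elements of the stabiliser
whose order is a power of two. -/
lemma integral_two_pow {I : Perm (Fin (n + 1)) → X → M} (h0 : ∀ x, I 1 x = 0)
    (h2 : ∀ g h x, I (g * h) x = I g (h • x) + I h x) (hM : ∀ v : M, v + v = 0 → v = 0) {x : X}
    {g : Perm (Fin (n + 1))} (hg : g • x = x) {k : ℕ} (hk : g ^ (2 ^ k) = 1) : I g x = 0 := by
  have h3 := integral_pow h0 h2 hg (2 ^ k)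
  rw [hk, h0] at h3
  have key : ∀ (k : ℕ) (v : M), 2 ^ k • v = 0 → v = 0 := by
    intro k
    induction k with
    | zero => intro v hv; simpa using hv
    | succ k ih =>
      intro v hv
      rw [pow_succ, mul_smul, two_nsmul] at hv
      exact hM v (ih _ hv)
  exact key k _ h3.symm

/-- If `M` has no element of order two, the integral vanishes on the elements of the stabiliser
that are inverted by an element of the stabiliser. -/
lemma integral_inverted {I : Perm (Fin (n + 1)) → X → M} (h0 : ∀ x, I 1 x = 0)
    (h2 : ∀ g h x, I (g * h) x = I g (h • x) + I h x) (hM : ∀ v : M, v + v = 0 → v = 0) {x : X}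
    {g h : Perm (Fin (n + 1))} (hg : g • x = x) (hh : h • x = x) (hgh : h * g = g⁻¹ * h) :
    I g x = 0 := by
  have e1 : I (h * g) x = I h x + I g x := integral_mul h2 hg
  have e2 : I (g⁻¹ * h) x = I g⁻¹ x + I h x := integral_mul h2 hh
  have e3 := integral_inv h0 h2 g x
  rw [hg] at e3
  rw [hgh, e2, e3] at e1
  apply hM
  have : I g x + I g x = (I h x + I g x) - (- I g x + I h x) := by abel
  rw [this, e1]; abel

/-- **Existence of a primitive**: if every homomorphism of every stabiliser to `M` is trivial then
every closed 1-form is the difference of a function. -/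
theorem exists_primitive_of_hom {c : X → Fin n → M} (hc : Closed c)
    (hst : ∀ (x : X) (φ : MulAction.stabilizer (Perm (Fin (n + 1))) x →* Multiplicative M), φ = 1) :
    ∃ F : X → M, ∀ x i, F x - F (s i • x) = c x i := by
  obtain ⟨I, h0, h1, h2⟩ := exists_integral hc
  refine exists_primitive h1 h2 fun x g hg => ?_
  let φ : MulAction.stabilizer (Perm (Fin (n + 1))) x →* Multiplicative M :=
    { toFun := fun g => Multiplicative.ofAdd (I g.1 x)
      map_one' := by show Multiplicative.ofAdd (I 1 x) = 1; rw [h0]; rfl
      map_mul' := fun g h => by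
        show Multiplicative.ofAdd (I (g.1 * h.1) x) = _
        rw [integral_mul h2 h.2]; rfl }
  have := congrArg (fun f => f ⟨g, hg⟩) (hst x φ)
  exact this

end Act

end Pool.Agent.SWT49
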