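import Pool.Agent.SWT49.Wheel

/-!
# The rim of a wheel

A connected graph without cherries with as many legs as inner vertices is a wheel: after a
permutation of the legs consecutive legs sit at adjacent vertices, and such an order is unique up to
rotations and the reversal.
-/

set_option autoImplicit false

namespace Pool.Agent.SWT49

open Pool.Agent.SWT80 Pool.Agent.SWT93 Equiv

variable {V W : Type} {n : ℕ}

/-- The inner vertices of the legs `i` and `j` are joined by an edge. -/
def Adj (G : Gr V n) (i j : Fin n) : Prop :=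
  ∃ y, (y = G.r (xe G i) ∨ y = G.r (G.r (xe G i))) ∧
    (G.e y = G.r (xe G j) ∨ G.e y = G.r (G.r (xe G j)))

/-- Consecutive legs sit at adjacent vertices. -/
def Rim (G : Gr V n) : Prop := ∀ i, Adj G i (finRotate n i)

lemma Adj.symm {G : Gr V n} {i j : Fin n} (h : Adj G i j) : Adj G j i := by
  obtain ⟨y, h1, h2⟩ := h
  refine ⟨G.e y, h2, ?_⟩
  rw [G.e2]; exact h1

/-! ### invariance -/

lemma xe_map (f : V ≃ W) (G : Gr V n) (i : Fin n) : xe (G.map f) i = f (xe G i) := by
  unfold xe
  rw [Gr.map_leg, Gr.map_e]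

lemma adj_map (f : V ≃ W) (G : Gr V n) (i j : Fin n) : Adj (G.map f) i j ↔ Adj G i j := by
  constructor
  · rintro ⟨y, h1, h2⟩
    obtain ⟨y, rfl⟩ := f.surjective y
    rw [xe_map, Gr.map_r, Gr.map_r, f.injective.eq_iff, f.injective.eq_iff] at h1
    rw [xe_map, Gr.map_e, Gr.map_r, Gr.map_r, f.injective.eq_iff, f.injective.eq_iff] at h2
    exact ⟨y, h1, h2⟩
  · rintro ⟨y, h1, h2⟩
    refine ⟨f y, ?_, ?_⟩
    · rw [xe_map, Gr.map_r, Gr.map_r, f.injective.eq_iff, f.injective.eq_iff]; exact h1
    · rw [xe_map, Gr.map_e, Gr.map_r, Gr.map_r, f.injective.eq_iff, f.injective.eq_iff]; exact h2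

theorem rim_map (f : V ≃ W) (G : Gr V n) : Rim (G.map f) ↔ Rim G := by
  unfold Rim
  simp only [adj_map]

lemma flip_pair (G : Gr V n) (x v y : V) :
    (y = (G.flip x).r v ∨ y = (G.flip x).r ((G.flip x).r v)) ↔ (y = G.r v ∨ y = G.r (G.r v)) := by
  rw [Gr.flip_r, Gr.flip_r]
  by_cases h : G.vt x v
  · have h2 : G.vt x (G.r (G.r v)) := G.vt_r.2 (G.vt_r.2 h)
    rw [Gr.fr_pos h, Gr.fr_pos h2, G.r3]
    exact or_comm
  · have h2 : ¬ G.vt x (G.r v) := fun h' => h (G.vt_r.1 h')
    rw [Gr.fr_neg h, Gr.fr_neg h2]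

lemma adj_flip (G : Gr V n) (x : V) (i j : Fin n) : Adj (G.flip x) i j ↔ Adj G i j := by
  unfold Adj
  have e1 : ∀ k, xe (G.flip x) k = xe G k := fun k => rfl
  simp only [e1, flip_pair]
  rfl

theorem rim_flip (G : Gr V n) (x : V) : Rim (G.flip x) ↔ Rim G := by
  unfold Rim
  simp only [adj_flip]

lemma adj_smul (g : Perm (Fin n)) (G : Gr V n) (i j : Fin n) :
    Adj (g • G) i j ↔ Adj G (g⁻¹ i) (g⁻¹ j) := Iff.rfl

/-! ### existence -/

section Ex

/-- the two rim half-edges at the vertex of a leg -/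
def rho (G : Gr V n) : Fin n × Bool → V
  | (i, false) => G.r (xe G i)
  | (i, true) => G.r (G.r (xe G i))

/-- the other rim half-edge at the same vertex -/
def oth {n : ℕ} (y : Fin n × Bool) : Fin n × Bool := (y.1, !y.2)

lemma oth_oth (y : Fin n × Bool) : oth (oth y) = y := by
  unfold oth; simp

lemma oth_ne (y : Fin n × Bool) : oth y ≠ y := by
  intro h
  have := congrArg Prod.snd h
  unfold oth at this
  simp at this

lemma eq_or_oth {y z : Fin n × Bool} (h : y.1 = z.1) : y = z ∨ y = oth z := by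
  obtain ⟨i, b⟩ := y
  obtain ⟨j, c⟩ := z
  simp only at h
  subst h
  unfold oth
  cases b <;> cases c <;> simp

lemma rho_inj {G : Gr V n} (hp : Function.Injective (psi G)) : Function.Injective (rho G) := by
  rintro ⟨i, b⟩ ⟨j, c⟩ h
  cases b <;> cases c
  · have := @hp (Sum.inl (i, 1)) (Sum.inl (j, 1)) h
    simpa using this
  · have := @hp (Sum.inl (i, 1)) (Sum.inl (j, 2)) h
    simp at this
  · have := @hp (Sum.inl (i, 2)) (Sum.inl (j, 1)) h
    simp at this
  · have := @hp (Sum.inl (i, 2)) (Sum.inl (j, 2)) h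
    simpa using this

lemma rho_ne_leg {G : Gr V n} (hp : Function.Injective (psi G)) (y : Fin n × Bool) (j : Fin n) :
    rho G y ≠ G.leg j := by
  obtain ⟨i, b⟩ := y
  intro h
  cases b
  · have := @hp (Sum.inl (i, 1)) (Sum.inr j) h
    simp at this
  · have := @hp (Sum.inl (i, 2)) (Sum.inr j) h
    simp at this

lemma rho_ne_xe {G : Gr V n} (hp : Function.Injective (psi G)) (y : Fin n × Bool) (j : Fin n) :
    rho G y ≠ xe G j := by
  obtain ⟨i, b⟩ := y
  intro h
  cases b
  · have := @hp (Sum.inl (i, 1)) (Sum.inl (j, 0)) h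
    simp at this
  · have := @hp (Sum.inl (i, 2)) (Sum.inl (j, 0)) h
    simp at this

/-- the other half of a rim edge is a rim half-edge -/
lemma exists_E {G : Gr V n} (hp : Function.Bijective (psi G)) (y : Fin n × Bool) :
    ∃ z, rho G z = G.e (rho G y) := by
  obtain ⟨t, ht⟩ := hp.2 (G.e (rho G y))
  rcases t with ⟨j, k⟩ | j
  · fin_cases k
    · exfalso
      have e1 : xe G j = G.e (rho G y) := ht
      have e2 : G.e (xe G j) = rho G y := by rw [e1, G.e2]
      rw [e_xe] at e2
      exact rho_ne_leg hp.1 y j e2.symm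
    · exact ⟨(j, false), ht⟩
    · exact ⟨(j, true), ht⟩
  · exfalso
    have e1 : G.leg j = G.e (rho G y) := ht
    have e2 : G.e (G.leg j) = rho G y := by rw [e1, G.e2]
    exact rho_ne_xe hp.1 y j e2.symm

lemma c_val {m : ℕ} (i : Fin (m + 1)) : (finRotate (m + 1) i).val = (i.val + 1) % (m + 1) := by
  rw [finRotate_apply, Fin.val_add]
  rcases m with _ | m
  · simp
  · simp [Nat.add_mod]

/-- **Existence of a rim order.** -/
theorem exists_rim [Finite V] (G : Gr V n) (hG : GConn G) (h3 : 3 ≤ n) (hV : Nat.card V = 4 * n)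
    (hno : NoCherry G) : ∃ g : Perm (Fin n), Rim (g • G) := by
  obtain ⟨m, rfl⟩ : ∃ m, n = m + 1 := ⟨n - 1, by omega⟩
  have hp := psi_bij G hG h3 hV hno
  choose E hE using exists_E hp
  have hr := rho_inj hp.1
  have hEE : ∀ y, E (E y) = y := by
    intro y
    apply hr
    rw [hE, hE, G.e2]
  have hEne : ∀ y, E y ≠ y := by
    intro y h
    have := hE y
    rw [h] at this
    exact G.e1 _ this.symm
  let w : Fin (m + 1) × Bool → Fin (m + 1) × Bool := fun y => oth (E y)
  have hw : Function.Injective w := by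
    intro y z h
    have h1 : E y = E z := by
      have := congrArg oth h
      simp only [w, oth_oth] at this
      exact this
    have := congrArg E h1
    rwa [hEE, hEE] at this
  let y0 : Fin (m + 1) × Bool := (0, false)
  let z : ℕ → Fin (m + 1) × Bool := fun k => w^[k] y0
  have hz : ∀ k, z (k + 1) = oth (E (z k)) := fun k => Function.iterate_succ_apply' w k y0
  have hper : y0 ∈ Function.periodicPts w := hw.mem_periodicPts y0
  set p := Function.minimalPeriod w y0 with hpdef
  have hp0 : 0 < p := Function.minimalPeriod_pos_of_mem_periodicPts hper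
  have hmod : ∀ k, z (k % p) = z k := fun k => Function.iterate_mod_minimalPeriod_eq
  have hadd : ∀ k j, z (k + p * j) = z k := by
    intro k j
    rw [← hmod (k + p * j), Nat.add_mul_mod_self_left, hmod]
  -- the reversed half-edge is not on the orbit
  have hrefl : ∀ d a, oth (z a) ≠ z (a + d) := by
    intro d
    induction d using Nat.twoStepInduction with
    | zero => intro a h; exact oth_ne _ h
    | one =>
      intro a h
      rw [hz] at h
      have := congrArg oth h
      rw [oth_oth, oth_oth] at this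
      exact hEne _ this.symm
    | more d ih _ =>
      intro a h
      have h1 : z (a + (d + 2)) = oth (E (z (a + (d + 1)))) := hz (a + (d + 1))
      rw [h1] at h
      have h2 : z a = E (z (a + (d + 1))) := by
        have := congrArg oth h
        rwa [oth_oth, oth_oth] at this
      have h3 : E (z a) = z (a + (d + 1)) := by rw [h2, hEE]
      apply ih (a + 1)
      rw [hz, oth_oth, h3]
      congr 1
      ring
  have hrefl' : ∀ a b, oth (z a) ≠ z b := by
    intro a b h
    have h1 : z (b + p * a) = z b := hadd b a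
    rw [← h1] at h
    have h2 : a ≤ b + p * a := by nlinarith
    obtain ⟨d, hd⟩ := Nat.exists_eq_add_of_le h2
    rw [hd] at h
    exact hrefl d a h
  -- the visited vertices
  have hT : ∀ i, ∃ k, (z k).1 = i := by
    have huniv := hG {v | ∃ k, v = G.leg (z k).1 ∨ v = xe G (z k).1 ∨ v = G.r (xe G (z k).1) ∨
        v = G.r (G.r (xe G (z k).1))} ⟨?_, ?_⟩ ⟨_, 0, Or.inl rfl⟩
    · intro i
      have hi : G.leg i ∈ {v | ∃ k, v = G.leg (z k).1 ∨ v = xe G (z k).1 ∨
          v = G.r (xe G (z k).1) ∨ v = G.r (G.r (xe G (z k).1))} := by rw [huniv]; trivial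
      obtain ⟨k, hk | hk | hk | hk⟩ := hi
      · exact ⟨k, (G.inj hk).symm⟩
      · have := @hp.1 (Sum.inr i) (Sum.inl ((z k).1, 0)) hk
        simp at this
      · have := @hp.1 (Sum.inr i) (Sum.inl ((z k).1, 1)) hk
        simp at this
      · have := @hp.1 (Sum.inr i) (Sum.inl ((z k).1, 2)) hk
        simp at this
    · -- closed under `e`
      have hrim : ∀ (y : Fin (m + 1) × Bool) (k : ℕ), y.1 = (z k).1 →
          ∃ j, (E y).1 = (z j).1 := by
        intro y k h
        rcases eq_or_oth h with h | h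
        · refine ⟨k + 1, ?_⟩
          rw [hz, h]; rfl
        · refine ⟨k + p - 1, ?_⟩
          have h1 : z k = oth (E (z (k + p - 1))) := by
            rw [← hz]
            have : k + p - 1 + 1 = k + p * 1 := by omega
            rw [this, hadd]
          have h2 : y = E (z (k + p - 1)) := by rw [h, h1, oth_oth]
          rw [h2, hEE]
      have hmem : ∀ y : Fin (m + 1) × Bool, (∃ j, y.1 = (z j).1) →
          ∃ k, rho G y = G.leg (z k).1 ∨ rho G y = xe G (z k).1 ∨ rho G y = G.r (xe G (z k).1) ∨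
            rho G y = G.r (G.r (xe G (z k).1)) := by
        rintro ⟨i, b⟩ ⟨j, hj⟩
        simp only at hj
        subst hj
        refine ⟨j, ?_⟩
        cases b
        · right; right; left; rfl
        · right; right; right; rfl
      rintro v ⟨k, hk | hk | hk | hk⟩
      · refine ⟨k, Or.inr (Or.inl ?_)⟩
        rw [hk]; rfl
      · refine ⟨k, Or.inl ?_⟩
        rw [hk, e_xe]
      · have e1 : v = rho G ((z k).1, false) := hk
        rw [e1, ← hE]
        exact hmem _ (hrim _ k rfl)
      · have e1 : v = rho G ((z k).1, true) := hk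
        rw [e1, ← hE]
        exact hmem _ (hrim _ k rfl)
    · rintro v ⟨k, hk | hk | hk | hk⟩
      · refine ⟨k, Or.inl ?_⟩
        rw [hk, G.r_leg]
      · refine ⟨k, Or.inr (Or.inr (Or.inl ?_))⟩
        rw [hk]
      · refine ⟨k, Or.inr (Or.inr (Or.inr ?_))⟩
        rw [hk]
      · refine ⟨k, Or.inr (Or.inl ?_)⟩
        rw [hk, G.r3]
  -- the period
  have hinj : Function.Injective (fun k : Fin p => (z k.val).1) := by
    intro a b h
    simp only at h
    rcases eq_or_oth h with h | h
    · apply Fin.ext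
      exact Function.iterate_injOn_Iio_minimalPeriod (f := w) (x := y0) a.2 b.2 h
    · exact absurd h.symm (hrefl' _ _)
  have hsurj : Function.Surjective (fun k : Fin p => (z k.val).1) := by
    intro i
    obtain ⟨k, hk⟩ := hT i
    refine ⟨⟨k % p, Nat.mod_lt _ hp0⟩, ?_⟩
    show (z (k % p)).1 = i
    rw [hmod]; exact hk
  have hcard : p = m + 1 := by
    have := Fintype.card_of_bijective ⟨hinj, hsurj⟩
    simpa using this
  have hinj' : Function.Injective (fun k : Fin (m + 1) => (z k.val).1) := by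
    intro a b h
    have := @hinj ⟨a.val, by rw [hcard]; exact a.2⟩ ⟨b.val, by rw [hcard]; exact b.2⟩ h
    have h2 := congrArg Fin.val this
    exact Fin.ext h2
  have hmod' : ∀ k, z (k % (m + 1)) = z k := by
    intro k
    have := hmod k
    rwa [hcard] at this
  let l : Perm (Fin (m + 1)) := Equiv.ofBijective _ (Finite.injective_iff_bijective.1 hinj')
  refine ⟨l⁻¹, fun i => ?_⟩
  rw [adj_smul, inv_inv]
  have hl : ∀ k : Fin (m + 1), l k = (z k.val).1 := fun k => rfl
  have hl1 : l (finRotate (m + 1) i) = (E (z i.val)).1 := by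
    rw [hl, c_val, hmod', hz]; rfl
  refine ⟨rho G (z i.val), ?_, ?_⟩
  · rw [hl]
    rcases hzi : z i.val with ⟨j, b⟩
    cases b
    · left; rfl
    · right; rfl
  · rw [hl1, ← hE]
    rcases hzi : E (z i.val) with ⟨j, b⟩
    cases b
    · left; rfl
    · right; rfl

end Ex

/-! ### uniqueness -/

section Un

lemma c_ne {m : ℕ} (h3 : 3 ≤ m + 1) (i : Fin (m + 1)) :
    finRotate (m + 1) (finRotate (m + 1) i) ≠ i := by
  intro h
  have h1 := congrArg Fin.val h
  rw [c_val, c_val] at h1
  have h2 := i.2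
  rcases Nat.lt_or_ge (i.val + 1) (m + 1) with h4 | h4
  · rw [Nat.mod_eq_of_lt h4] at h1
    rcases Nat.lt_or_ge (i.val + 1 + 1) (m + 1) with h5 | h5
    · rw [Nat.mod_eq_of_lt h5] at h1; omega
    · have : i.val + 1 + 1 = m + 1 := by omega
      rw [this, Nat.mod_self] at h1; omega
  · have : i.val + 1 = m + 1 := by omega
    rw [this, Nat.mod_self, Nat.mod_eq_of_lt (by omega)] at h1
    omega

/-- a self-map that commutes with the rotation is a power of the rotation -/
lemma eq_pow {m : ℕ} (h : Perm (Fin (m + 1)))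
    (hc : ∀ i, h (finRotate (m + 1) i) = finRotate (m + 1) (h i)) :
    ∃ k : ℕ, h = finRotate (m + 1) ^ k := by
  have hpow : ∀ (k : ℕ) (i : Fin (m + 1)),
      ((finRotate (m + 1) ^ k) i).val = (i.val + k) % (m + 1) := by
    intro k
    induction k with
    | zero => intro i; simp [Nat.mod_eq_of_lt i.2]
    | succ k ih =>
      intro i
      rw [pow_succ', Perm.mul_apply, c_val, ih, Nat.mod_add_mod]
      congr 1
  refine ⟨(h 0).val, ?_⟩
  have h0 : ∀ i : Fin (m + 1), (finRotate (m + 1) ^ i.val) 0 = i := by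
    intro i
    apply Fin.ext
    rw [hpow]
    simp [Nat.mod_eq_of_lt i.2]
  have hcp : ∀ (k : ℕ) (i : Fin (m + 1)),
      h ((finRotate (m + 1) ^ k) i) = (finRotate (m + 1) ^ k) (h i) := by
    intro k
    induction k with
    | zero => intro i; rfl
    | succ k ih => intro i; rw [pow_succ', Perm.mul_apply, hc, ih]; rfl
  ext i
  rw [← h0 i, hcp]
  rw [hpow, hpow, h0, add_comm]

lemma w0_c {m : ℕ} (i : Fin (m + 1)) :
    finRotate (m + 1) (w0 m (finRotate (m + 1) i)) = w0 m i := by
  apply Fin.ext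
  have h1 : ∀ j : Fin (m + 1), (w0 m j).val = m - j.val := by
    intro j
    unfold w0
    rw [Fin.revPerm_apply, Fin.val_rev]
    omega
  rw [c_val, h1, h1, c_val]
  have h2 := i.2
  rcases Nat.lt_or_ge (i.val + 1) (m + 1) with h4 | h4
  · rw [Nat.mod_eq_of_lt h4, Nat.mod_eq_of_lt (by omega)]; omega
  · have : i.val + 1 = m + 1 := by omega
    rw [this, Nat.mod_self, Nat.sub_zero, Nat.mod_self]; omega

lemma w0_inv_pow {m : ℕ} (k : ℕ) :
    w0 m * (finRotate (m + 1) ^ k)⁻¹ = finRotate (m + 1) ^ k * w0 m := by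
  have h1 : w0 m = finRotate (m + 1) * w0 m * finRotate (m + 1) := by
    ext i
    rw [Perm.mul_apply, Perm.mul_apply, w0_c]
  induction k with
  | zero => simp
  | succ k ih =>
    have h2 : w0 m = finRotate (m + 1) ^ k * w0 m * finRotate (m + 1) ^ k := by
      rw [← ih]; simp
    have h3 : w0 m = finRotate (m + 1) ^ (k + 1) * w0 m * finRotate (m + 1) ^ (k + 1) := by
      calc w0 m = finRotate (m + 1) * w0 m * finRotate (m + 1) := h1
        _ = finRotate (m + 1) * (finRotate (m + 1) ^ k * w0 m * finRotate (m + 1) ^ k) *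
            finRotate (m + 1) := by rw [← h2]
        _ = _ := by rw [pow_succ' (finRotate (m + 1)) k]; simp only [mul_assoc]; rw [← pow_succ, pow_succ']
    rw [mul_inv_eq_iff_eq_mul]
    exact h3

/-- In a rim order the neighbours are the neighbours in the cyclic order. -/
lemma adj_rim {m : ℕ} {G : Gr V (m + 1)} (hp : Function.Injective (psi G)) (h3 : 3 ≤ m + 1)
    (hG : Rim G) {i j : Fin (m + 1)} (h : Adj G i j) :
    j = finRotate (m + 1) i ∨ finRotate (m + 1) j = i := by
  have hv : ∀ {y : V} {a b : Fin (m + 1)}, (y = G.r (xe G a) ∨ y = G.r (G.r (xe G a))) →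
      (y = G.r (xe G b) ∨ y = G.r (G.r (xe G b))) → a = b := by
    intro y a b h1 h2
    have k1 : ∃ s, y = rho G (a, s) := by
      rcases h1 with h1 | h1
      · exact ⟨false, h1⟩
      · exact ⟨true, h1⟩
    have k2 : ∃ s, y = rho G (b, s) := by
      rcases h2 with h2 | h2
      · exact ⟨false, h2⟩
      · exact ⟨true, h2⟩
    obtain ⟨s1, e1⟩ := k1
    obtain ⟨s2, e2⟩ := k2
    have := rho_inj hp (e1.symm.trans e2)
    exact congrArg Prod.fst this
  obtain ⟨i', hi'⟩ := (finRotate (m + 1)).surjective i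
  obtain ⟨y1, a1, a2⟩ := hG i
  have h4 := (hG i').symm
  rw [hi'] at h4
  obtain ⟨y2, b1, b2⟩ := h4
  obtain ⟨y, d1, d2⟩ := h
  have hne : y1 ≠ y2 := by
    rintro rfl
    have := hv a2 b2
    apply c_ne h3 i'
    rw [hi', this]
  have hor : y = y1 ∨ y = y2 := by
    rcases a1 with a1 | a1 <;> rcases b1 with b1 | b1 <;> rcases d1 with d1 | d1
    · exact Or.inl (d1.trans a1.symm)
    · exact absurd (a1.trans b1.symm) hne
    · exact Or.inl (d1.trans a1.symm)
    · exact Or.inr (d1.trans b1.symm)
    · exact Or.inr (d1.trans b1.symm)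
    · exact Or.inl (d1.trans a1.symm)
    · exact absurd (a1.trans b1.symm) hne
    · exact Or.inl (d1.trans a1.symm)
  rcases hor with rfl | rfl
  · left; exact hv d2 a2
  · right
    have := hv d2 b2
    rw [this, hi']

/-- **Uniqueness of the rim order** up to rotations and the reversal. -/
theorem rim_unique [Finite V] {m : ℕ} {G : Gr V (m + 1)} (hG : GConn G) (h3 : 3 ≤ m + 1)
    (hno : NoCherry G) (h1 : Rim G) {g : Perm (Fin (m + 1))} (h2 : Rim (g • G)) :
    ∃ k : ℕ, g = finRotate (m + 1) ^ k ∨ g = finRotate (m + 1) ^ k * w0 m := by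
  have hp := psi_inj G (leg_inner G hG h3) hno
  set h := g⁻¹ with hh
  have hor : ∀ i, h (finRotate (m + 1) i) = finRotate (m + 1) (h i) ∨
      finRotate (m + 1) (h (finRotate (m + 1) i)) = h i := by
    intro i
    have := h2 i
    rw [adj_smul] at this
    exact adj_rim hp h3 h1 this
  have hP : ∀ i, h (finRotate (m + 1) i) = finRotate (m + 1) (h i) →
      h (finRotate (m + 1) (finRotate (m + 1) i)) = finRotate (m + 1) (h (finRotate (m + 1) i)) := by
    intro i hi
    rcases hor (finRotate (m + 1) i) with h4 | h4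
    · exact h4
    · exfalso
      rw [hi] at h4
      have := h.injective ((finRotate (m + 1)).injective h4)
      exact c_ne h3 i this
  have hQ : ∀ i, finRotate (m + 1) (h (finRotate (m + 1) i)) = h i →
      finRotate (m + 1) (h (finRotate (m + 1) (finRotate (m + 1) i))) =
        h (finRotate (m + 1) i) := by
    intro i hi
    rcases hor (finRotate (m + 1) i) with h4 | h4
    · exfalso
      rw [hi] at h4
      exact c_ne h3 i (h.injective h4)
    · exact h4
  have hall : ∀ P : Fin (m + 1) → Prop, (∀ i, P i → P (finRotate (m + 1) i)) → P 0 → ∀ i, P i := by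
    intro P hs h0
    have : ∀ (k : ℕ) (hk : k < m + 1), P ⟨k, hk⟩ := by
      intro k
      induction k with
      | zero => intro hk; exact h0
      | succ k ih =>
        intro hk
        have e := hs _ (ih (by omega))
        have e2 : finRotate (m + 1) ⟨k, by omega⟩ = ⟨k + 1, hk⟩ := by
          apply Fin.ext
          rw [c_val]
          exact Nat.mod_eq_of_lt hk
        rwa [e2] at e
    exact fun i => this i.val i.2
  have hN : 0 < orderOf (finRotate (m + 1)) := orderOf_pos _
  have hinvp : ∀ k : ℕ, ∃ k' : ℕ, (finRotate (m + 1) ^ k)⁻¹ = finRotate (m + 1) ^ k' := by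
    intro k
    refine ⟨k * (orderOf (finRotate (m + 1)) - 1), ?_⟩
    rw [inv_eq_iff_mul_eq_one, ← pow_add]
    have : k + k * (orderOf (finRotate (m + 1)) - 1) = orderOf (finRotate (m + 1)) * k := by
      obtain ⟨N, hN'⟩ : ∃ N, orderOf (finRotate (m + 1)) = N + 1 := ⟨_, (Nat.succ_pred_eq_of_pos hN).symm⟩
      rw [hN']
      simp only [Nat.add_sub_cancel]
      ring
    rw [this, pow_mul, pow_orderOf_eq_one, one_pow]
  have hg : g = h⁻¹ := by rw [hh, inv_inv]
  rcases hor 0 with h0 | h0
  · obtain ⟨k, hk⟩ := eq_pow h (hall _ hP h0)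
    obtain ⟨k', hk'⟩ := hinvp k
    exact ⟨k', Or.inl (by rw [hg, hk, hk'])⟩
  · have hQ' := hall (fun i => finRotate (m + 1) (h (finRotate (m + 1) i)) = h i) hQ h0
    obtain ⟨k, hk⟩ := eq_pow (h * w0 m) (by
      intro i
      rw [Perm.mul_apply, Perm.mul_apply]
      have e := hQ' (w0 m (finRotate (m + 1) i))
      rw [w0_c] at e
      exact e.symm)
    refine ⟨k, Or.inr ?_⟩
    have h5 : h = finRotate (m + 1) ^ k * w0 m := by
      rw [← hk, mul_assoc, w0_mul_w0, mul_one]
    have h6 : (w0 m)⁻¹ = w0 m := inv_eq_of_mul_eq_one_right (w0_mul_w0 m)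
    rw [hg, h5, mul_inv_rev, h6, w0_inv_pow]

end Un

end Pool.Agent.SWT49
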