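import Pool.Agent.SWT93.Stmts

/-!
# Pigeonhole and wheels

A connected graph with more legs than inner vertices has a cherry. If the numbers are equal and
there is no cherry then every inner vertex carries exactly one leg and the graph is a wheel.
-/

set_option autoImplicit false

namespace Pool.Agent.SWT49

open Pool.Agent.SWT80 Pool.Agent.SWT93

variable {V : Type} {n : ℕ}

/-- the inner end of the leg `i` -/
def xe (G : Gr V n) (i : Fin n) : V := G.e (G.leg i)

lemma xe_inj (G : Gr V n) {i j : Fin n} (h : xe G i = xe G j) : i = j := G.inj (G.e_inj h)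

lemma e_xe (G : Gr V n) (i : Fin n) : G.e (xe G i) = G.leg i := G.e2 _

lemma rr_ne {G : Gr V n} {v : V} (h : G.r v ≠ v) : G.r (G.r v) ≠ v := fun h' => h (G.r2 h')

lemma rr_ne' {G : Gr V n} {v : V} (h : G.r v ≠ v) : G.r (G.r v) ≠ G.r v := fun h' => h (G.r_inj h')

/-- In a connected graph with at least three legs every leg ends at an inner vertex. -/
lemma leg_inner (G : Gr V n) (hG : GConn G) (h3 : 3 ≤ n) (i : Fin n) :
    G.r (xe G i) ≠ xe G i := by
  intro h
  obtain ⟨j, hj⟩ := (G.fix _).1 h
  have huniv := hG {G.leg i, G.leg j} ⟨by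
    rintro v (rfl | rfl)
    · right; rw [hj]; rfl
    · left; rw [hj]; exact G.e2 _, by
    rintro v (rfl | rfl)
    · left; exact G.r_leg i
    · right; exact G.r_leg j⟩ ⟨G.leg i, Or.inl rfl⟩
  obtain ⟨k, hk⟩ : ∃ k : Fin n, k ≠ i ∧ k ≠ j := by
    have hc : ({i, j} : Finset (Fin n)).card < (Finset.univ : Finset (Fin n)).card := by
      have := Finset.card_le_two (a := i) (b := j)
      rw [Finset.card_univ, Fintype.card_fin]; omega
    obtain ⟨k, _, hk⟩ := Finset.exists_mem_notMem_of_card_lt_card hc
    simp only [Finset.mem_insert, Finset.mem_singleton, not_or] at hk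
    exact ⟨k, hk⟩
  have hmem : G.leg k ∈ ({G.leg i, G.leg j} : Set V) := by rw [huniv]; trivial
  rcases hmem with h' | h'
  · exact hk.1 (G.inj h')
  · exact hk.2 (G.inj h')

/-- the half-edges at the inner vertices that carry legs, and the legs -/
def psi (G : Gr V n) : (Fin n × Fin 3) ⊕ Fin n → V
  | Sum.inl (i, 0) => xe G i
  | Sum.inl (i, 1) => G.r (xe G i)
  | Sum.inl (i, 2) => G.r (G.r (xe G i))
  | Sum.inr i => G.leg i

lemma inner_ne_leg (G : Gr V n) {v : V} (h : G.r v ≠ v) (j : Fin n) : v ≠ G.leg j := by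
  rintro rfl
  exact h (G.r_leg j)

lemma r_inner {G : Gr V n} {v : V} (h : G.r v ≠ v) : G.r (G.r v) ≠ G.r v := rr_ne' h

/-- Without cherries `psi` is injective. -/
lemma psi_inj (G : Gr V n) (hin : ∀ i, G.r (xe G i) ≠ xe G i)
    (hno : NoCherry G) : Function.Injective (psi G) := by
  have hleg : ∀ (i : Fin n) (k : Fin 3) (j : Fin n), psi G (Sum.inl (i, k)) ≠ G.leg j := by
    intro i k j
    have h0 := hin i
    have h1 := r_inner h0
    have h2 := r_inner h1
    fin_cases k
    · exact inner_ne_leg G h0 j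
    · exact inner_ne_leg G h1 j
    · exact inner_ne_leg G h2 j
  have hr : ∀ (i j : Fin n), i ≠ j → G.r (xe G i) ≠ xe G j := fun i j hij h => hno i j ⟨hij, h⟩
  rintro (⟨i, k⟩ | i) (⟨j, l⟩ | j) h
  · by_cases hij : i = j
    · subst hij
      have h0 := hin i
      have e1 := rr_ne h0
      have e2 := rr_ne' h0
      congr 2
      fin_cases k <;> fin_cases l
      · rfl
      · exact absurd h.symm h0
      · exact absurd h.symm e1
      · exact absurd h h0
      · rfl
      · exact absurd h.symm e2
      · exact absurd h e1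
      · exact absurd h e2
      · rfl
    · exfalso
      have a1 := hr i j hij
      have a2 := hr j i (Ne.symm hij)
      fin_cases k <;> fin_cases l
      · exact hij (xe_inj G h)
      · exact a2 h.symm
      · apply a1
        have : xe G i = G.r (G.r (xe G j)) := h
        rw [this, G.r3]
      · exact a1 h
      · exact hij (xe_inj G (G.r_inj h))
      · exact a2 (G.r_inj h).symm
      · apply a2
        have : G.r (G.r (xe G i)) = xe G j := h
        rw [← this, G.r3]
      · exact a1 (G.r_inj h)
      · exact hij (xe_inj G (G.r_inj (G.r_inj h)))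
  · exact absurd h (hleg i k j)
  · exact absurd h.symm (hleg j l i)
  · rw [G.inj h]

/-- **Pigeonhole.** A connected graph with more legs than inner vertices has a cherry. -/
theorem exists_cherry [Finite V] (G : Gr V n) (hG : GConn G) (h3 : 3 ≤ n)
    (hV : Nat.card V < 4 * n) : ∃ i j, Cherry G i j := by
  by_contra hno
  push Not at hno
  have hinj := psi_inj G (leg_inner G hG h3) hno
  have := Nat.card_le_card_of_injective _ hinj
  rw [Nat.card_sum, Nat.card_prod, Nat.card_fin, Nat.card_fin] at this
  omega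

/-- If there is no cherry and there are as many legs as inner vertices then `psi` is a bijection. -/
lemma psi_bij [Finite V] (G : Gr V n) (hG : GConn G) (h3 : 3 ≤ n) (hV : Nat.card V = 4 * n)
    (hno : NoCherry G) : Function.Bijective (psi G) := by
  have hinj := psi_inj G (leg_inner G hG h3) hno
  have : Fintype V := Fintype.ofFinite V
  refine (Fintype.bijective_iff_injective_and_card _).mpr ⟨hinj, ?_⟩
  rw [← Nat.card_eq_fintype_card, ← Nat.card_eq_fintype_card, hV, Nat.card_sum, Nat.card_prod,
    Nat.card_fin, Nat.card_fin]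
  omega

/-- **IHX at equality.** If a connected graph has as many legs as inner vertices then every IHX
triple that starts with it contains a diagram with a cherry. -/
theorem loc_cherry [Finite V] {I J X : Gr V n} {x : V} (h : Gr.Loc I J X x) (hG : GConn I)
    (h3 : 3 ≤ n) (hV : Nat.card V = 4 * n) :
    (∃ i j, Cherry I i j) ∨ (∃ i j, Cherry J i j) ∨ (∃ i j, Cherry X i j) := by
  by_cases hno : ∃ i j, Cherry I i j
  · exact Or.inl hno
  right
  push Not at hno
  have hb := psi_bij I hG h3 hV hno
  -- the leg at the vertex of an inner half-edge whose other half is inner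
  have key : ∀ v, I.r v ≠ v → I.r (I.e v) ≠ I.e v →
      ∃ i, xe I i = I.r v ∨ xe I i = I.r (I.r v) := by
    intro v hv hv'
    obtain ⟨t, ht⟩ := hb.2 v
    rcases t with ⟨i, k⟩ | i
    · fin_cases k
      · exfalso
        apply hv'
        have e1 : xe I i = v := ht
        rw [← e1, e_xe]
        exact I.r_leg i
      · refine ⟨i, Or.inr ?_⟩
        have e1 : I.r (xe I i) = v := ht
        rw [← e1, I.r3]
      · refine ⟨i, Or.inl ?_⟩
        have e1 : I.r (I.r (xe I i)) = v := ht
        rw [← e1, I.r3]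
    · exfalso
      apply hv
      have e1 : I.leg i = v := ht
      rw [← e1]
      exact I.r_leg i
  obtain ⟨i, hi⟩ := key x h.ok.ix h.ok.iy
  obtain ⟨j, hj⟩ := key (I.e x) h.ok.iy (by rw [I.e2]; exact h.ok.ix)
  have hij : i ≠ j := by
    rintro rfl
    have h1 : ∀ v w : V, I.r v = I.r w → v = w := fun v w => I.r_inj
    rcases hi with hi | hi <;> rcases hj with hj | hj
    · have := I.r_inj (hi.symm.trans hj)
      exact I.e1 x this.symm
    · have e1 : x = I.r (I.e x) := I.r_inj (hi.symm.trans hj)
      apply h.ok.yb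
      have e2 : I.r (I.r x) = I.r (I.r (I.r (I.e x))) := by rw [← e1]
      rw [I.r3] at e2
      exact e2.symm
    · have e1 : I.r x = I.e x := I.r_inj (hi.symm.trans hj)
      exact h.ok.ya e1.symm
    · have := I.r_inj (I.r_inj (hi.symm.trans hj))
      exact I.e1 x this.symm
  have cJ : ∀ k, J.e (J.leg k) = xe I k := fun k => by rw [h.eJ, h.lJ]; rfl
  have cX : ∀ k, X.e (X.leg k) = xe I k := fun k => by rw [h.eX, h.lX]; rfl
  rcases hi with hi | hi <;> rcases hj with hj | hj
  · right
    refine ⟨i, j, hij, ?_⟩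
    rw [cX, cX, hi, hj]
    exact h.x2
  · left
    refine ⟨j, i, Ne.symm hij, ?_⟩
    rw [cJ, cJ, hi, hj]
    exact h.j5
  · left
    refine ⟨i, j, hij, ?_⟩
    rw [cJ, cJ, hi, hj]
    exact h.j2
  · right
    refine ⟨j, i, Ne.symm hij, ?_⟩
    rw [cX, cX, hi, hj]
    exact h.x5

/-- The form of `loc_cherry` with `NoCherry`. -/
theorem loc_noCherry [Finite V] {I J X : Gr V n} {x : V} (h : Gr.Loc I J X x) (hG : GConn I)
    (h3 : 3 ≤ n) (hV : Nat.card V = 4 * n) : ¬ (NoCherry I ∧ NoCherry J ∧ NoCherry X) := by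
  rintro ⟨h1, h2, h4⟩
  rcases loc_cherry h hG h3 hV with ⟨i, j, hc⟩ | ⟨i, j, hc⟩ | ⟨i, j, hc⟩
  · exact h1 i j hc
  · exact h2 i j hc
  · exact h4 i j hc

end Pool.Agent.SWT49
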