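import Pool.Agent.SWT80.Gr

/-!
# Connected based graphs and cherries
-/

set_option autoImplicit false

namespace Pool.Agent.SWT49

open Pool.Agent.SWT80

variable {V : Type} {n : ℕ}

/-- The graph is connected. -/
def GConn (G : Gr V n) : Prop :=
  ∀ S : Set V, S.Nonempty → (∀ v ∈ S, G.e v ∈ S) → (∀ v ∈ S, G.r v ∈ S) → S = Set.univ

/-- The legs `i` and `j` end at the same inner vertex, `j` after `i` in its cyclic order. -/
def Cherry (G : Gr V n) (i j : Fin n) : Prop := G.r (G.e (G.leg i)) = G.e (G.leg j)

end Pool.Agent.SWT49
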