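import Mathlib
import Pool.Agent.SWT65.Ops
import Pool.Agent.SWT89.Rimd

/-!
# Pairs of opened edges

The pairs of edges whose opening leaves the graph connected exist, can be chosen away from a given
edge, and are linked by steps which change one of the two edges, with three edges whose opening
leaves the graph connected.
-/

set_option autoImplicit false

namespace Pool.Agent.SWT49

open Equiv Pool.Agent.SWT80 Pool.Agent.SWT93 Pool.Agent.SWT84 Pool.Agent.SWT84.Cy
  Pool.Agent.SWT89 Pool.Agent.SWT65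

variable {V : Type} {n : ℕ}

/-! ### Connectivity after the opening of an edge -/

theorem cd_opn {G : Gr V n} {D : Set V} {h : V} (hD : Ecl G D) (hh : h ∉ D) :
    CD (G.opn h) (Sum.inl '' D) ↔ CD G (D ∪ {h, G.e h}) := by
  have hh' : G.e h ∉ D := fun h' => hh (hD.iff.1 h')
  have mD : ∀ v, (Sum.inl v : V ⊕ Bool) ∈ Sum.inl '' D ↔ v ∈ D := fun v =>
    Sum.inl_injective.mem_set_image
  have mT : ∀ t, (Sum.inr t : V ⊕ Bool) ∉ Sum.inl '' D := by
    rintro t ⟨v, _, hv⟩
    cases hv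
  constructor
  · intro H S hS hne
    let S' : Set (V ⊕ Bool) := {w | match w with
      | Sum.inl v => v ∈ S
      | Sum.inr false => h ∈ S
      | Sum.inr true => G.e h ∈ S}
    have h1 : CldD (G.opn h) (Sum.inl '' D) S' := by
      refine ⟨?_, ?_⟩
      · rintro (v | t) hv hv'
        · have hv1 : v ∈ S := hv
          by_cases k1 : v = h
          · subst k1
            rw [Gr.opn_e_h]
            exact hv1
          by_cases k2 : v = G.e h
          · subst k2
            rw [Gr.opn_e_eh]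
            exact hv1
          rw [Gr.opn_e_o G h k1 k2]
          refine hS.e v hv1 ?_
          rintro (k3 | k3 | k3)
          · exact hv' ((mD v).2 k3)
          · exact k1 k3
          · exact k2 k3
        · cases t
          · exact hv
          · exact hv
      · rintro (v | t) hv
        · exact hS.r v hv
        · cases t
          · exact hv
          · exact hv
    obtain ⟨v, hv⟩ := hne
    have h2 := H S' h1 ⟨Sum.inl v, hv⟩
    refine Set.eq_univ_of_forall fun u => ?_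
    have h3 : (Sum.inl u : V ⊕ Bool) ∈ S' := by rw [h2]; trivial
    exact h3
  · intro H S' hS hne
    have h1 : CldD G (D ∪ {h, G.e h}) (Sum.inl ⁻¹' S') := by
      refine ⟨fun v hv hv' => ?_, fun v hv => hS.r _ hv⟩
      have k1 : v ≠ h := fun k => hv' (Or.inr (Or.inl k))
      have k2 : v ≠ G.e h := fun k => hv' (Or.inr (Or.inr k))
      have h2 := hS.e (Sum.inl v) hv fun k => hv' (Or.inl ((mD v).1 k))
      rw [Gr.opn_e_o G h k1 k2] at h2
      exact h2
    have h2 : (Sum.inl ⁻¹' S' : Set V).Nonempty := by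
      obtain ⟨w, hw⟩ := hne
      rcases w with v | t
      · exact ⟨v, hw⟩
      · cases t
        · exact ⟨h, hS.e _ hw (mT _)⟩
        · exact ⟨G.e h, hS.e _ hw (mT _)⟩
    have h3 := H _ h1 h2
    have h4 : ∀ v, (Sum.inl v : V ⊕ Bool) ∈ S' := fun v => by
      have h5 : v ∈ (Sum.inl ⁻¹' S' : Set V) := by rw [h3]; trivial
      exact h5
    refine Set.eq_univ_of_forall fun w => ?_
    rcases w with v | t
    · exact h4 v
    · cases t
      · have h5 := hS.e _ (h4 h) fun k => hh ((mD h).1 k)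
        rw [Gr.opn_e_h] at h5
        exact h5
      · have h5 := hS.e _ (h4 (G.e h)) fun k => hh' ((mD _).1 k)
        rw [Gr.opn_e_eh] at h5
        exact h5

/-- The opening of two edges leaves the graph connected. -/
def Op2 (G : Gr V n) (a b : V) : Prop :=
  b ≠ a ∧ b ≠ G.e a ∧ CD G ({a, G.e a} ∪ {b, G.e b})

/-- The opening of three edges leaves the graph connected. -/
def Op3 (G : Gr V n) (a b c : V) : Prop :=
  (b ≠ a ∧ b ≠ G.e a) ∧ (c ≠ a ∧ c ≠ G.e a) ∧ (c ≠ b ∧ c ≠ G.e b) ∧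
    CD G ({a, G.e a} ∪ {b, G.e b} ∪ {c, G.e c})

theorem opn_pair {G : Gr V n} {a b : V} (h1 : b ≠ a) (h2 : b ≠ G.e a) :
    ({Sum.inl b, (G.opn a).e (Sum.inl b)} : Set (V ⊕ Bool)) = Sum.inl '' {b, G.e b} := by
  rw [Gr.opn_e_o G a h1 h2, Set.image_pair]

theorem gconn_opn {G : Gr V n} {a : V} : GConn (G.opn a) ↔ CD G {a, G.e a} := by
  have h1 := cd_opn (G := G) (D := ∅) (h := a) (fun v hv => absurd hv (Set.notMem_empty v))
    (Set.notMem_empty a)
  rw [Set.image_empty, Set.empty_union] at h1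
  exact gconn_iff.trans h1

/-- The new leg, joined to another new leg, is a component. -/
theorem not_cd_new {G : Gr V n} {a : V} {w : V ⊕ Bool} {t : Bool}
    (hw : w = Sum.inr t ∨ (G.opn a).e w = Sum.inr t) :
    ¬ CD (G.opn a) {w, (G.opn a).e w} := by
  intro H
  have h1 : CldD (G.opn a) {w, (G.opn a).e w} {Sum.inr t} := by
    refine ⟨?_, ?_⟩
    · rintro v rfl hv'
      exact absurd (by rcases hw with hw | hw
                       · exact Or.inl hw.symm
                       · exact Or.inr hw.symm) hv'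
    · rintro v rfl
      rfl
  have h2 := H _ h1 ⟨_, rfl⟩
  have h3 : (Sum.inl a : V ⊕ Bool) ∈ ({Sum.inr t} : Set (V ⊕ Bool)) := by rw [h2]; trivial
  cases h3

theorem op2_iff {G : Gr V n} {a b : V} : GConn (opn2 G a b) ↔ Op2 G a b := by
  by_cases h1 : b = a
  · constructor
    · intro H
      exfalso
      rw [opn2, gconn_opn] at H
      refine not_cd_new (G := G) (a := a) (w := Sum.inl b) (t := false) ?_ H
      right
      rw [h1, Gr.opn_e_h]
    · intro H
      exact absurd h1 H.1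
  by_cases h2 : b = G.e a
  · constructor
    · intro H
      exfalso
      rw [opn2, gconn_opn] at H
      refine not_cd_new (G := G) (a := a) (w := Sum.inl b) (t := true) ?_ H
      right
      rw [h2, Gr.opn_e_eh]
    · intro H
      exact absurd h2 H.2.1
  rw [opn2, gconn_opn, opn_pair h1 h2]
  have h3 : a ∉ ({b, G.e b} : Set V) := by
    rintro (h | h)
    · exact h1 h.symm
    · have h' : a = G.e b := h
      exact h2 (by rw [h', G.e2])
  rw [cd_opn (ecl_pair G b) h3, Set.union_comm]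
  exact ⟨fun h => ⟨h1, h2, h⟩, fun h => h.2.2⟩

theorem op2_symm {G : Gr V n} {a b : V} (h : Op2 G a b) : Op2 G b a :=
  ⟨h.1.symm, fun h' => h.2.1 (by rw [h', G.e2]), by rw [Set.union_comm]; exact h.2.2⟩

theorem pair_e (G : Gr V n) (a : V) : ({G.e a, G.e (G.e a)} : Set V) = {a, G.e a} := by
  rw [G.e2, Set.pair_comm]

theorem op2_e {G : Gr V n} {a b : V} (h : Op2 G a b) : Op2 G a (G.e b) :=
  ⟨fun h' => h.2.1 (by rw [← h', G.e2]), fun h' => h.1 (G.e_inj h'), by
    rw [pair_e]
    exact h.2.2⟩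

theorem op3_swap {G : Gr V n} {a b c : V} (h : Op3 G a b c) : Op3 G a c b :=
  ⟨h.2.1, h.1, ⟨h.2.2.1.1.symm, fun h' => h.2.2.1.2 (by rw [h', G.e2])⟩, by
    rw [Set.union_assoc, Set.union_comm {c, G.e c}, ← Set.union_assoc]
    exact h.2.2.2⟩

theorem op3_left {G : Gr V n} {a b c : V} (h : Op3 G a b c) : Op2 G a b :=
  ⟨h.1.1, h.1.2, h.2.2.2.mono Set.subset_union_left⟩

/-- Three opened edges, for the graph with two opened edges. -/
theorem op3_iff {G : Gr V n} {a b c : V} (h : Op2 G a b) :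
    GConn ((opn2 G a b).opn (Sum.inl (Sum.inl c))) ↔ Op3 G a b c := by
  have hab : a ≠ b := h.1.symm
  have hab' : a ≠ G.e b := fun h' => h.2.1 (by rw [h', G.e2])
  rw [gconn_opn]
  by_cases h1 : c = a
  · subst h1
    constructor
    · intro H
      exfalso
      have h3 : (opn2 G c b).e (Sum.inl (Sum.inl c)) = Sum.inl (Sum.inr false) := by
        rw [opn2, Gr.opn_e_o, Gr.opn_e_h]
        · exact fun h' => hab (Sum.inl.inj h')
        · rw [Gr.opn_e_o G c h.1 h.2.1]
          exact fun h' => hab' (Sum.inl.inj h')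
      have h4 : CldD (opn2 G c b) {Sum.inl (Sum.inl c), (opn2 G c b).e (Sum.inl (Sum.inl c))}
          {Sum.inl (Sum.inr false)} := by
        refine ⟨?_, ?_⟩
        · rintro v rfl hv'
          exact absurd (Or.inr h3.symm) hv'
        · rintro v rfl
          rfl
      have h5 := H _ h4 ⟨_, rfl⟩
      have h6 : (Sum.inr true : (V ⊕ Bool) ⊕ Bool) ∈
          ({Sum.inl (Sum.inr false)} : Set ((V ⊕ Bool) ⊕ Bool)) := by rw [h5]; trivial
      cases h6
    · intro H
      exact absurd rfl H.2.1.1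
  by_cases h2 : c = G.e a
  · subst h2
    constructor
    · intro H
      exfalso
      have h3 : (opn2 G a b).e (Sum.inl (Sum.inl (G.e a))) = Sum.inl (Sum.inr true) := by
        rw [opn2, Gr.opn_e_o, Gr.opn_e_eh]
        · exact fun h' => h.2.1 (Sum.inl.inj h').symm
        · rw [Gr.opn_e_o G a h.1 h.2.1]
          exact fun h' => h.1 (G.e_inj (Sum.inl.inj h')).symm
      have h4 : CldD (opn2 G a b)
          {Sum.inl (Sum.inl (G.e a)), (opn2 G a b).e (Sum.inl (Sum.inl (G.e a)))}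
          {Sum.inl (Sum.inr true)} := by
        refine ⟨?_, ?_⟩
        · rintro v rfl hv'
          exact absurd (Or.inr h3.symm) hv'
        · rintro v rfl
          rfl
      have h5 := H _ h4 ⟨_, rfl⟩
      have h6 : (Sum.inr true : (V ⊕ Bool) ⊕ Bool) ∈
          ({Sum.inl (Sum.inr true)} : Set ((V ⊕ Bool) ⊕ Bool)) := by rw [h5]; trivial
      cases h6
    · intro H
      exact absurd rfl H.2.1.2
  by_cases h3 : c = b
  · subst h3
    constructor
    · intro H
      exfalso
      rw [opn2] at H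
      refine not_cd_new (G := G.opn a) (a := Sum.inl c) (w := Sum.inl (Sum.inl c))
        (t := false) ?_ H
      right
      rw [Gr.opn_e_h]
    · intro H
      exact absurd rfl H.2.2.1.1
  by_cases h4 : c = G.e b
  · subst h4
    constructor
    · intro H
      exfalso
      rw [opn2] at H
      refine not_cd_new (G := G.opn a) (a := Sum.inl b) (w := Sum.inl (Sum.inl (G.e b)))
        (t := true) ?_ H
      right
      rw [← Gr.opn_e_o G a h.1 h.2.1, Gr.opn_e_eh]
    · intro H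
      exact absurd rfl H.2.2.1.2
  have e1 : (opn2 G a b).e (Sum.inl (Sum.inl c)) = Sum.inl (Sum.inl (G.e c)) := by
    rw [opn2, Gr.opn_e_o, Gr.opn_e_o G a h1 h2]
    · exact fun h' => h3 (Sum.inl.inj h')
    · rw [Gr.opn_e_o G a h.1 h.2.1]
      exact fun h' => h4 (Sum.inl.inj h')
  have e2 : ({Sum.inl (Sum.inl c), (opn2 G a b).e (Sum.inl (Sum.inl c))} :
      Set ((V ⊕ Bool) ⊕ Bool)) = Sum.inl '' (Sum.inl '' {c, G.e c}) := by
    rw [e1, Set.image_pair, Set.image_pair]
  have hcl : Ecl (G.opn a) (Sum.inl '' {c, G.e c}) := by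
    rintro _ ⟨v, hv, rfl⟩
    have hv1 : v ≠ a := by
      rintro rfl
      rcases hv with hv | hv
      · exact h1 hv.symm
      · have hv' : v = G.e c := hv
        exact h2 (by rw [hv', G.e2])
    have hv2 : v ≠ G.e a := by
      rintro rfl
      rcases hv with hv | hv
      · exact h2 hv.symm
      · have hv' : G.e a = G.e c := hv
        exact h1 (G.e_inj hv').symm
    rw [Gr.opn_e_o G a hv1 hv2]
    exact ⟨_, ecl_pair G c v hv, rfl⟩
  have hb : (Sum.inl b : V ⊕ Bool) ∉ Sum.inl '' ({c, G.e c} : Set V) := by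
    rintro ⟨v, hv, hv'⟩
    have h5 := Sum.inl.inj hv'
    subst h5
    rcases hv with hv | hv
    · exact h3 hv.symm
    · have hv' : v = G.e c := hv
      exact h4 (by rw [hv', G.e2])
  have ha : a ∉ ({c, G.e c} ∪ {b, G.e b} : Set V) := by
    rintro ((h5 | h5) | (h5 | h5))
    · exact h1 h5.symm
    · have h5' : a = G.e c := h5
      exact h2 (by rw [h5', G.e2])
    · exact hab h5
    · exact hab' h5
  rw [e2]
  unfold opn2
  rw [cd_opn hcl hb, opn_pair h.1 h.2.1, ← Set.image_union,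
    cd_opn ((ecl_pair G c).union (ecl_pair G b)) ha]
  have e3 : ({c, G.e c} ∪ {b, G.e b} ∪ {a, G.e a} : Set V) =
      {a, G.e a} ∪ {b, G.e b} ∪ {c, G.e c} := by
    rw [Set.union_comm, Set.union_comm {c, G.e c}, Set.union_assoc]
  rw [e3]
  exact ⟨fun H => ⟨⟨h.1, h.2.1⟩, ⟨h1, h2⟩, ⟨h3, h4⟩, H⟩, fun H => H.2.2.2⟩

/-! ### Cycles and connectivity -/

/-- A finite set with an involution without fixed points. -/
theorem even_of_inv [Finite V] {T : Set V} (τ : V → V) (h1 : ∀ v ∈ T, τ v ∈ T)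
    (h2 : ∀ v ∈ T, τ v ≠ v) (h3 : ∀ v ∈ T, τ (τ v) = v) : Even T.ncard := by
  classical
  have : Fintype V := Fintype.ofFinite V
  have hs : ∑ v ∈ T.toFinset, (1 : ZMod 2) = 0 := by
    refine Finset.sum_involution (fun v _ => τ v) ?_ ?_ ?_ ?_
    · intro v _
      decide
    · intro v hv _
      exact h2 v (Set.mem_toFinset.1 hv)
    · intro v hv
      exact Set.mem_toFinset.2 (h1 v (Set.mem_toFinset.1 hv))
    · intro v hv
      exact h3 v (Set.mem_toFinset.1 hv)
  rw [Finset.sum_const, nsmul_eq_mul, mul_one, ZMod.natCast_eq_zero_iff_even] at hs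
  rw [Set.ncard_eq_toFinset_card']
  exact hs

/-- Parity: the half-edges of a cycle in a union of vertices. -/
theorem even_cy [Finite V] {G : Gr V n} {R S : Set V} (hR : Cy G R) (hS : ∀ v ∈ S, G.r v ∈ S) :
    Even (R ∩ S).ncard := by
  classical
  refine even_of_inv (fun v => if G.r v ∈ R then G.r v else G.r (G.r v)) ?_ ?_ ?_
  · intro v hv
    by_cases h3 : G.r v ∈ R
    · simp only [if_pos h3]
      exact ⟨h3, hS _ hv.2⟩
    · simp only [if_neg h3]
      rcases hR.two v hv.1 with h4 | h4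
      · exact absurd h4.1 h3
      · exact ⟨h4.2, hS _ (hS _ hv.2)⟩
  · intro v hv h2
    have hne := hR.ne_leg hv.1
    by_cases h3 : G.r v ∈ R
    · simp only [if_pos h3] at h2
      exact hne h2
    · simp only [if_neg h3] at h2
      exact hne (G.r2 h2)
  · intro v hv
    by_cases h3 : G.r v ∈ R
    · have h4 : G.r (G.r v) ∉ R := by
        rcases hR.two v hv.1 with h4 | h4
        · exact h4.2
        · exact absurd h3 h4.1
      simp only [if_pos h3, if_neg h4]
      exact G.r3 v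
    · have h4 : G.r (G.r (G.r v)) ∈ R := by rw [G.r3]; exact hv.1
      simp only [if_neg h3, if_pos h4]
      exact G.r3 v

/-- An edge of a cycle can be opened. -/
theorem cd_of_cy [Finite V] {G : Gr V n} {D R : Set V} {z : V} (hD : CD G D) (hR : Cy G R)
    (hRD : ∀ v ∈ R, v ∉ D) (hz : z ∈ R) : CD G (D ∪ {z, G.e z}) := by
  intro S hS hne
  have hT : Even ((R ∩ S) \ {z, G.e z}).ncard := by
    refine even_of_inv G.e ?_ (fun v _ => G.e1 v) (fun v _ => G.e2 v)
    rintro v ⟨⟨h1, h2⟩, h3⟩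
    refine ⟨⟨hR.e v h1, hS.e v h2 ?_⟩, ?_⟩
    · rintro (h4 | h4)
      · exact hRD v h1 h4
      · exact h3 h4
    · rintro (h4 | h4)
      · exact h3 (Or.inr (by rw [← h4]; exact (G.e2 v).symm))
      · exact h3 (Or.inl (G.e_inj h4))
  have hE := even_cy hR hS.r
  have hez : G.e z ∈ R := hR.e z hz
  have key : z ∈ S ↔ G.e z ∈ S := by
    constructor
    · intro h1
      by_contra h2
      have h3 : R ∩ S = insert z ((R ∩ S) \ {z, G.e z}) := by
        ext v
        constructor
        · intro hv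
          by_cases h4 : v = z
          · exact Or.inl h4
          · refine Or.inr ⟨hv, ?_⟩
            rintro (h5 | h5)
            · exact h4 h5
            · have h5' : v = G.e z := h5
              exact h2 (h5' ▸ hv.2)
        · rintro (hv | hv)
          · rw [hv]
            exact ⟨hz, h1⟩
          · exact hv.1
      rw [h3, Set.ncard_insert_of_notMem (fun h4 => h4.2 (Or.inl rfl))] at hE
      exact (Nat.not_even_iff_odd.2 hT.add_one) hE
    · intro h1
      by_contra h2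
      have h3 : R ∩ S = insert (G.e z) ((R ∩ S) \ {z, G.e z}) := by
        ext v
        constructor
        · intro hv
          by_cases h4 : v = G.e z
          · exact Or.inl h4
          · refine Or.inr ⟨hv, ?_⟩
            rintro (h5 | h5)
            · exact h2 (h5 ▸ hv.2)
            · exact h4 h5
        · rintro (hv | hv)
          · rw [hv]
            exact ⟨hez, h1⟩
          · exact hv.1
      rw [h3, Set.ncard_insert_of_notMem (fun h4 => h4.2 (Or.inr rfl))] at hE
      exact (Nat.not_even_iff_odd.2 hT.add_one) hE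
  refine hD S ⟨fun v hv hv' => ?_, hS.r⟩ hne
  by_cases h1 : v = z
  · rw [h1] at hv ⊢
    exact key.1 hv
  by_cases h2 : v = G.e z
  · rw [h2] at hv ⊢
    rw [G.e2]
    exact key.2 hv
  refine hS.e v hv ?_
  rintro (h3 | h3 | h3)
  · exact hv' h3
  · exact h1 h3
  · exact h2 h3

/-- The cycles of an opened graph. -/
theorem cy_opn {G : Gr V n} {a : V} {R : Set (V ⊕ Bool)} (hR : Cy (G.opn a) R) :
    Cy G (Sum.inl ⁻¹' R) ∧ (∀ v, (Sum.inl v : V ⊕ Bool) ∈ R → v ∉ ({a, G.e a} : Set V)) ∧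
      ∀ t, (Sum.inr t : V ⊕ Bool) ∉ R := by
  have hT : ∀ t, (Sum.inr t : V ⊕ Bool) ∉ R := fun t ht => hR.ne_leg ht rfl
  have hA : ∀ v, (Sum.inl v : V ⊕ Bool) ∈ R → v ∉ ({a, G.e a} : Set V) := by
    rintro v hv (h | h)
    · have h1 := hR.e _ hv
      rw [h, Gr.opn_e_h] at h1
      exact hT _ h1
    · have h' : v = G.e a := h
      have h1 := hR.e _ hv
      rw [h', Gr.opn_e_eh] at h1
      exact hT _ h1
  refine ⟨⟨fun v hv => ?_, fun v hv => hR.two _ hv⟩, hA, hT⟩
  have h1 := hR.e _ hv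
  rw [Gr.opn_e_o G a (fun h => hA v hv (Or.inl h)) (fun h => hA v hv (Or.inr h))] at h1
  exact h1

theorem cy_opn_nonempty {G : Gr V n} {a : V} {R : Set (V ⊕ Bool)} (hR : Cy (G.opn a) R)
    (hne : R.Nonempty) : (Sum.inl ⁻¹' R : Set V).Nonempty := by
  obtain ⟨w, hw⟩ := hne
  rcases w with v | t
  · exact ⟨v, hw⟩
  · exact absurd hw ((cy_opn hR).2.2 t)

/-- A cycle has a half-edge away from a given edge which is not a loop. -/
theorem cy_avoid {G : Gr V n} {R : Set V} {x : V} (hR : Cy G R) (hne : R.Nonempty)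
    (hx : ¬ G.vt x (G.e x)) : ∃ z ∈ R, z ∉ ({x, G.e x} : Set V) := by
  obtain ⟨v, hv⟩ := hne
  by_cases h : v ∈ ({x, G.e x} : Set V)
  · have hxR : x ∈ R := by
      rcases h with h | h
      · rw [← h]; exact hv
      · have h' : v = G.e x := h
        rw [← G.e2 x, ← h']
        exact hR.e v hv
    rcases hR.two x hxR with h1 | h1
    · refine ⟨G.r x, h1.1, ?_⟩
      rintro (h2 | h2)
      · exact hR.ne_leg hxR h2
      · exact hx (Or.inr (Or.inl h2.symm))
    · refine ⟨G.r (G.r x), h1.2, ?_⟩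
      rintro (h2 | h2)
      · exact hR.ne_leg hxR (G.r2 h2)
      · exact hx (Or.inr (Or.inr h2.symm))
  · exact ⟨v, hv, h⟩

/-! ### The exchange property -/

theorem ecl_sdiff {G : Gr V n} {D S : Set V} (hD : Ecl G D) (h : CldD G D S) {v : V} (hv : v ∉ D) :
    G.e v ∈ S ↔ v ∈ S :=
  ⟨fun h1 => by
    have h2 := h.e _ h1 fun h3 => hv (hD.iff.1 h3)
    rwa [G.e2] at h2, fun h1 => h.e v h1 hv⟩

theorem r_iff {G : Gr V n} {S : Set V} (h : ∀ v ∈ S, G.r v ∈ S) {v : V} : G.r v ∈ S ↔ v ∈ S :=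
  ⟨fun h1 => by
    have h2 := h _ (h _ h1)
    rwa [G.r3] at h2, h v⟩

theorem prop_aux1 {p q p' q' : Prop} (h1 : ¬ (p' ↔ p)) (h2 : ¬ (q' ↔ q)) (h : ¬ (p ↔ q)) :
    ¬ (p' ↔ q') := by tauto

theorem prop_aux2 {p q p' q' : Prop} (h1 : ¬ (p ↔ q)) (h2 : ¬ (p' ↔ q')) (h3 : q' ↔ q) :
    p' ↔ p := by tauto

/-- **Exchange.** If the two edges `b`, `z` can be opened together, and `c` can be opened, then `c`
can be opened together with `b` or with `z`. -/
theorem exchange {G : Gr V n} {D : Set V} {b z c : V} (hD : Ecl G D)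
    (hbz : b ∉ ({z, G.e z} : Set V)) (h1 : CD G (D ∪ {b, G.e b} ∪ {z, G.e z}))
    (h2 : CD G (D ∪ {c, G.e c})) :
    (c ∉ ({b, G.e b} : Set V) ∧ CD G (D ∪ {b, G.e b} ∪ {c, G.e c})) ∨
      (c ∉ ({z, G.e z} : Set V) ∧ CD G (D ∪ {z, G.e z} ∪ {c, G.e c})) := by
  have hpair : ∀ u v : V, u ∈ ({v, G.e v} : Set V) → ({u, G.e u} : Set V) = {v, G.e v} := by
    rintro u v (h | h)
    · rw [h]
    · have h' : u = G.e v := h
      rw [h', pair_e]
  have hsw : ∀ u v : V, u ∈ ({v, G.e v} : Set V) → v ∈ ({u, G.e u} : Set V) := by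
    intro u v h
    rw [hpair u v h]
    exact Or.inl rfl
  by_cases hcb : c ∈ ({b, G.e b} : Set V)
  · right
    refine ⟨fun h3 => hbz ?_, ?_⟩
    · rw [← hpair c z h3]
      exact hsw _ _ hcb
    · rw [hpair c b hcb, Set.union_assoc, Set.union_comm {z, G.e z}, ← Set.union_assoc]
      exact h1
  by_cases hcz : c ∈ ({z, G.e z} : Set V)
  · left
    refine ⟨hcb, ?_⟩
    rw [hpair c z hcz]
    exact h1
  by_contra hno
  push Not at hno
  obtain ⟨n1, n2⟩ := hno
  have n1 := n1 hcb
  have n2 := n2 hcz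
  unfold CD at n1 n2
  push Not at n1 n2
  obtain ⟨S, hS, hS1, hS2⟩ := n1
  obtain ⟨T, hT, hT1, hT2⟩ := n2
  have eb := ecl_pair G b
  have ez := ecl_pair G z
  have ec := ecl_pair G c
  -- both sets separate the ends of `c`
  have kS : ¬ (G.e c ∈ S ↔ c ∈ S) := by
    intro h3
    apply hS2
    refine (h1.mono Set.subset_union_left) S ⟨fun v hv hv' => ?_, hS.r⟩ hS1
    by_cases h4 : v ∈ ({c, G.e c} : Set V)
    · rcases h4 with h4 | h4
      · rw [h4] at hv ⊢
        exact h3.2 hv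
      · have h4' : v = G.e c := h4
        rw [h4'] at hv ⊢
        rw [G.e2]
        exact h3.1 hv
    · refine hS.e v hv ?_
      rintro (h5 | h5)
      · exact hv' h5
      · exact h4 h5
  have kT : ¬ (G.e c ∈ T ↔ c ∈ T) := by
    intro h3
    apply hT2
    have h1' : CD G (D ∪ {z, G.e z}) := by
      refine h1.mono ?_
      rintro v (hv | hv)
      · exact Or.inl (Or.inl hv)
      · exact Or.inr hv
    refine h1' T ⟨fun v hv hv' => ?_, hT.r⟩ hT1
    by_cases h4 : v ∈ ({c, G.e c} : Set V)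
    · rcases h4 with h4 | h4
      · rw [h4] at hv ⊢
        exact h3.2 hv
      · have h4' : v = G.e c := h4
        rw [h4'] at hv ⊢
        rw [G.e2]
        exact h3.1 hv
    · refine hT.e v hv ?_
      rintro (h5 | h5)
      · exact hv' h5
      · exact h4 h5
  -- `S` separates the ends of `b`
  have kb : ¬ (G.e b ∈ S ↔ b ∈ S) := by
    intro h3
    apply hS2
    refine h2 S ⟨fun v hv hv' => ?_, hS.r⟩ hS1
    by_cases h4 : v ∈ ({b, G.e b} : Set V)
    · rcases h4 with h4 | h4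
      · rw [h4] at hv ⊢
        exact h3.2 hv
      · have h4' : v = G.e b := h4
        rw [h4'] at hv ⊢
        rw [G.e2]
        exact h3.1 hv
    · refine hS.e v hv ?_
      rintro ((h5 | h5) | h5)
      · exact hv' (Or.inl h5)
      · exact h4 h5
      · exact hv' (Or.inr h5)
  have hbD : b ∉ D := by
    intro h3
    apply kb
    have h4 : CldD G (D ∪ {c, G.e c}) S := by
      refine ⟨fun v hv hv' => hS.e v hv ?_, hS.r⟩
      rintro ((h5 | h5) | h5)
      · exact hv' (Or.inl h5)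
      · rcases h5 with h5 | h5
        · exact hv' (Or.inl (h5 ▸ h3))
        · have h5' : v = G.e b := h5
          exact hv' (Or.inl (h5' ▸ hD b h3))
      · exact hv' (Or.inr h5)
    exact absurd (h2 S h4 hS1) hS2
  have hbc : b ∉ ({c, G.e c} : Set V) := fun h3 => hcb (hsw _ _ h3)
  have kTb : G.e b ∈ T ↔ b ∈ T := by
    refine ecl_sdiff ((hD.union ez).union ec) hT ?_
    rintro ((h3 | h3) | h3)
    · exact hbD h3
    · exact hbz h3
    · exact hbc h3
  -- the symmetric difference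
  have hU : CldD G (D ∪ {b, G.e b} ∪ {z, G.e z}) {v | ¬ (v ∈ S ↔ v ∈ T)} := by
    refine ⟨fun v hv hv' => ?_, fun v hv => ?_⟩
    · show ¬ (G.e v ∈ S ↔ G.e v ∈ T)
      have hv2 : ¬ (v ∈ S ↔ v ∈ T) := hv
      by_cases h4 : v ∈ ({c, G.e c} : Set V)
      · rcases h4 with h4 | h4
        · rw [h4] at hv2 ⊢
          exact prop_aux1 kS kT hv2
        · have h4' : v = G.e c := h4
          rw [h4'] at hv2 ⊢
          rw [G.e2]
          exact prop_aux1 (fun h => kS h.symm) (fun h => kT h.symm) hv2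
      · have h5 : G.e v ∈ S ↔ v ∈ S := by
          refine ecl_sdiff ((hD.union eb).union ec) hS ?_
          rintro ((h5 | h5) | h5)
          · exact hv' (Or.inl (Or.inl h5))
          · exact hv' (Or.inl (Or.inr h5))
          · exact h4 h5
        have h6 : G.e v ∈ T ↔ v ∈ T := by
          refine ecl_sdiff ((hD.union ez).union ec) hT ?_
          rintro ((h6 | h6) | h6)
          · exact hv' (Or.inl (Or.inl h6))
          · exact hv' (Or.inr h6)
          · exact h4 h6
        rw [h5, h6]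
        exact hv2
    · show ¬ (G.r v ∈ S ↔ G.r v ∈ T)
      rw [r_iff hS.r, r_iff hT.r]
      exact hv
  have hne : ({v | ¬ (v ∈ S ↔ v ∈ T)} : Set V).Nonempty := by
    by_cases h3 : b ∈ S ↔ b ∈ T
    · refine ⟨G.e b, ?_⟩
      show ¬ (G.e b ∈ S ↔ G.e b ∈ T)
      exact fun h4 => kb (h4.trans (kTb.trans h3.symm))
    · exact ⟨b, h3⟩
  have huniv := h1 _ hU hne
  have m1 : b ∈ ({v | ¬ (v ∈ S ↔ v ∈ T)} : Set V) := by rw [huniv]; trivial
  have m2 : G.e b ∈ ({v | ¬ (v ∈ S ↔ v ∈ T)} : Set V) := by rw [huniv]; trivial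
  have m1' : ¬ (b ∈ S ↔ b ∈ T) := m1
  have m2' : ¬ (G.e b ∈ S ↔ G.e b ∈ T) := m2
  exact kb (prop_aux2 m1' m2' kTb)

/-! ### Existence -/

/-- A second edge. -/
theorem exists_op2_of [Finite V] {G : Gr V (n + 1)} {a x : V} (ha : CD G {a, G.e a})
    (hV : 4 * (n + 1) + 6 ≤ Nat.card V) (hx : ¬ G.vt x (G.e x)) :
    ∃ b, Op2 G a b ∧ b ∉ ({x, G.e x} : Set V) := by
  have hc : Nat.card (V ⊕ Bool) = Nat.card V + 2 := by
    rw [Nat.card_sum, Nat.card_eq_fintype_card (α := Bool)]
    rfl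
  obtain ⟨R, hne, hR⟩ := exists_cy (n := n + 2) (G.opn a) (by rw [hc]; omega)
  obtain ⟨h1, h2, h3⟩ := cy_opn hR
  obtain ⟨z, hz, hz'⟩ := cy_avoid h1 (cy_opn_nonempty hR hne) hx
  have h4 := h2 z hz
  exact ⟨z, ⟨fun h => h4 (Or.inl h), fun h => h4 (Or.inr h), cd_of_cy ha h1 h2 hz⟩, hz'⟩

/-- Two edges away from a given edge can be opened. -/
theorem exists_op2 [Finite V] {G : Gr V (n + 1)} {x : V} (hG : GConn G)
    (hV : 4 * (n + 1) + 6 ≤ Nat.card V) (hx : ¬ G.vt x (G.e x)) :
    ∃ a b, Op2 G a b ∧ a ∉ ({x, G.e x} : Set V) ∧ b ∉ ({x, G.e x} : Set V) := by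
  obtain ⟨R, hne, hR⟩ := exists_cy G (by omega)
  obtain ⟨a, ha, ha'⟩ := cy_avoid hR hne hx
  have h1 := cd_of_cy (gconn_iff.1 hG) hR (fun v _ => Set.notMem_empty v) ha
  rw [Set.empty_union] at h1
  obtain ⟨b, hb, hb'⟩ := exists_op2_of h1 hV hx
  exact ⟨a, b, hb, ha', hb'⟩

/-- A third edge. -/
theorem exists_op3 [Finite V] {G : Gr V (n + 1)} {a b : V} (h : Op2 G a b)
    (hV : 4 * (n + 1) + 12 ≤ Nat.card V) : ∃ c, Op3 G a b c := by
  have hc : Nat.card ((V ⊕ Bool) ⊕ Bool) = Nat.card V + 4 := by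
    rw [Nat.card_sum, Nat.card_sum, Nat.card_eq_fintype_card (α := Bool)]
    rfl
  obtain ⟨R, hne, hR⟩ := exists_cy (n := n + 4) (opn2 G a b) (by rw [hc]; omega)
  obtain ⟨h1, h2, h3⟩ := cy_opn (G := G.opn a) hR
  obtain ⟨k1, k2, k3⟩ := cy_opn h1
  obtain ⟨z, hz⟩ := cy_opn_nonempty h1 (cy_opn_nonempty (G := G.opn a) hR hne)
  have ea : z ∉ ({a, G.e a} : Set V) := k2 z hz
  have eb : ∀ v, (Sum.inl (Sum.inl v) : (V ⊕ Bool) ⊕ Bool) ∈ R → v ∉ ({b, G.e b} : Set V) := by
    intro v hv h4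
    refine h2 _ hv ?_
    rw [opn_pair h.1 h.2.1]
    exact ⟨v, h4, rfl⟩
  refine ⟨z, ⟨h.1, h.2.1⟩, ⟨fun h4 => ea (Or.inl h4), fun h4 => ea (Or.inr h4)⟩,
    ⟨fun h4 => eb z hz (Or.inl h4), fun h4 => eb z hz (Or.inr h4)⟩, ?_⟩
  refine cd_of_cy h.2.2 k1 ?_ hz
  rintro v hv (h4 | h4)
  · exact k2 v hv h4
  · exact eb v hv h4

/-! ### The steps between the pairs -/

/-- **Any two pairs of opened edges are linked.** -/
theorem link [Finite V] {A : Type} {G : Gr V (n + 1)} (hV : 4 * (n + 1) + 12 ≤ Nat.card V)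
    (F : V → V → A) (hs : ∀ a b, Op2 G a b → F a b = F b a)
    (he : ∀ a b, Op2 G a b → F a (G.e b) = F a b)
    (ht : ∀ a b c, Op3 G a b c → F a b = F a c)
    {a b a' b' : V} (h : Op2 G a b) (h' : Op2 G a' b') : F a b = F a' b' := by
  have step : ∀ a b c, Op2 G a b → Op2 G a c → F a b = F a c := by
    intro a b c h1 h2
    by_cases k1 : c = b
    · rw [k1]
    by_cases k2 : c = G.e b
    · rw [k2]
      exact (he a b h1).symm
    by_cases k3 : Op3 G a b c
    · exact ht a b c k3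
    obtain ⟨z, hz⟩ := exists_op3 h1 hV
    have hbz : b ∉ ({z, G.e z} : Set V) := by
      rintro (h3 | h3)
      · exact hz.2.2.1.1 h3.symm
      · have h3' : b = G.e z := h3
        exact hz.2.2.1.2 (by rw [h3', G.e2])
    rcases exchange (D := {a, G.e a}) (ecl_pair G a) hbz hz.2.2.2 h2.2.2 with h3 | h3
    · exact absurd ⟨⟨h1.1, h1.2.1⟩, ⟨h2.1, h2.2.1⟩, ⟨k1, k2⟩, h3.2⟩ k3
    · have h4 : Op3 G a z c := ⟨hz.2.1, ⟨h2.1, h2.2.1⟩,
        ⟨fun h5 => h3.1 (Or.inl h5), fun h5 => h3.1 (Or.inr h5)⟩, h3.2⟩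
      rw [ht a b z hz, ht a z c h4]
  have hab : a ∉ ({b, G.e b} : Set V) := by
    rintro (h3 | h3)
    · exact h.1 h3.symm
    · have h3' : a = G.e b := h3
      exact h.2.1 (by rw [h3', G.e2])
  have h1 : CD G (∅ ∪ {a, G.e a} ∪ {b, G.e b}) := by
    rw [Set.empty_union]
    exact h.2.2
  have h2 : CD G (∅ ∪ {a', G.e a'}) := by
    rw [Set.empty_union]
    exact h'.2.2.mono Set.subset_union_left
  rcases exchange (D := ∅) (fun v hv => absurd hv (Set.notMem_empty v)) hab h1 h2 with h3 | h3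
  · have h4 : Op2 G a a' := ⟨fun h5 => h3.1 (Or.inl h5), fun h5 => h3.1 (Or.inr h5), by
      have h5 := h3.2
      rw [Set.empty_union] at h5
      exact h5⟩
    rw [step a b a' h h4, hs a a' h4]
    exact step a' a b' (op2_symm h4) h'
  · have h4 : Op2 G b a' := ⟨fun h5 => h3.1 (Or.inl h5), fun h5 => h3.1 (Or.inr h5), by
      have h5 := h3.2
      rw [Set.empty_union] at h5
      exact h5⟩
    rw [hs a b h, step b a a' (op2_symm h) h4, hs b a' h4]
    exact step a' b b' (op2_symm h4) h'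

end Pool.Agent.SWT49
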