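import Mathlib
import Pool.Agent.SWT49.Link
import Pool.Agent.SWT45.Tree
import Pool.Agent.SWT65.Stmts

/-!
# M8a: the openable pairs of edges are linked
-/

set_option autoImplicit false

namespace Pool.Agent.SWT49

open Equiv Pool.Agent.SWT80 Pool.Agent.SWT93 Pool.Agent.SWT84 Pool.Agent.SWT84.Cy
  Pool.Agent.SWT89 Pool.Agent.SWT65

variable {V : Type} {n : ℕ}

/-- A third openable edge lies on the rim. -/
theorem op3_rim [Finite V] {G : Gr V n} {a b c : V} (h : Op3 G a b c) :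
    ∃ S, Cy (opn2 G a b) S ∧ Sum.inl (Sum.inl c) ∈ S := by
  have h1 := (op3_iff (op3_left h)).2 h
  rw [gconn_opn] at h1
  obtain ⟨S, hS, hc, _⟩ := SWT45.exists_cy_of_cd (G := opn2 G a b) (D := ∅)
    (h := Sum.inl (Sum.inl c)) (fun v hv => absurd hv (Set.notMem_empty v))
    (Set.notMem_empty _) (by rw [Set.empty_union]; exact h1)
  exact ⟨S, hS, hc⟩

theorem card_opn2' (V : Type) [Finite V] : Nat.card ((V ⊕ Bool) ⊕ Bool) = Nat.card V + 4 := by
  rw [Nat.card_sum, Nat.card_sum, Nat.card_eq_fintype_card (α := Bool)]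
  rfl

theorem one_op2 [Finite V] {G : Gr V (n + 1)} (hG : Three G) {a b : V} :
    One (opn2 G a b) ↔ Op2 G a b := by
  constructor
  · exact fun h => op2_iff.1 h.conn
  · intro h
    refine ⟨op2_iff.2 h, ?_⟩
    rw [card_opn2', hG.card]
    ring

/-- **M8a.** -/
theorem s_link : S_link := by
  intro n V _ G hG
  have hV : 4 * (n + 1) + 12 ≤ Nat.card V := hG.card.ge
  refine ⟨fun x hx => ?_, ?_, ?_⟩
  · have h1 : ¬ G.vt x (G.e x) := by
      rintro (h | h | h)
      · exact G.e1 x h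
      · exact hx.ya h
      · exact hx.yb h
    obtain ⟨a, b, h2, h3, h4⟩ := exists_op2 hG.conn (by omega) h1
    exact ⟨a, b, (one_op2 hG).2 h2, fun h => h3 (Or.inl h), fun h => h3 (Or.inr h),
      fun h => h4 (Or.inl h), fun h => h4 (Or.inr h)⟩
  · obtain ⟨R, ⟨a, ha⟩, hR⟩ := exists_cy G (by omega)
    have h1 := cd_of_cy (gconn_iff.1 hG.conn) hR (fun v _ => Set.notMem_empty v) ha
    rw [Set.empty_union] at h1
    have hc : Nat.card (V ⊕ Bool) = Nat.card V + 2 := by
      rw [Nat.card_sum, Nat.card_eq_fintype_card (α := Bool)]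
      rfl
    obtain ⟨R', hne, hR'⟩ := exists_cy (n := n + 2) (G.opn a) (by rw [hc]; omega)
    obtain ⟨k1, k2, _⟩ := cy_opn hR'
    obtain ⟨z, hz⟩ := cy_opn_nonempty hR' hne
    have h4 := k2 z hz
    exact ⟨a, z, (one_op2 hG).2 ⟨fun h => h4 (Or.inl h), fun h => h4 (Or.inr h),
      cd_of_cy h1 k1 k2 hz⟩⟩
  · intro h k h' k' h1 h2
    have key := link (G := G) hV (fun a b => SWT65.Link G h k a b) ?_ ?_ ?_
      ((one_op2 hG).1 h1) ((one_op2 hG).1 h2)
    · have key' : SWT65.Link G h k h k = SWT65.Link G h k h' k' := key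
      rw [← key']
      exact SWT65.Link.refl h k
    · intro a b hab
      refine propext ⟨fun H => H.swap _ _ _ _ ((one_op2 hG).2 hab), fun H =>
        H.swap _ _ _ _ ((one_op2 hG).2 (op2_symm hab))⟩
    · intro a b hab
      refine propext ⟨fun H => ?_, fun H => H.e _ _ _ _ ((one_op2 hG).2 hab)⟩
      have h3 := H.e _ _ _ _ ((one_op2 hG).2 (op2_e hab))
      rw [G.e2] at h3
      exact h3
    · intro a b c habc
      have h3 := op3_swap habc
      obtain ⟨S, hS, hc⟩ := op3_rim habc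
      obtain ⟨T, hT, hb⟩ := op3_rim h3
      exact propext ⟨fun H => H.exch _ _ _ _ c S ((one_op2 hG).2 (op3_left habc)) hS hc,
        fun H => H.exch _ _ _ _ b T ((one_op2 hG).2 (op3_left h3)) hT hb⟩

end Pool.Agent.SWT49
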