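import Pool.Agent.SWT49.Rev

/-!
# Linear relations between the values of a primitive

If a linear relation holds for the closed 1-form along a family of tuples that is stable under the
action then the corresponding combination of the values of a primitive is invariant; it is zero as
soon as one permutation changes its sign.
-/

set_option autoImplicit false

namespace Pool.Agent.SWT49

open Equiv

section Defect

variable {n : ℕ} {M : Type*} [AddCommGroup M] {X : Type*} [MulAction (Perm (Fin (n + 1))) X]
  {ι : Type*} [Fintype ι]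

/-- The defect of a linear relation is invariant. -/
lemma defect_invariant {F : X → M} {c : X → Fin n → M} (hF : ∀ x i, F x - F (s i • x) = c x i)
    (a : ι → ℤ) (t : ι → X)
    (hc : ∀ (g : Perm (Fin (n + 1))) (i : Fin n), ∑ j, a j • c (g • t j) i = 0)
    (g : Perm (Fin (n + 1))) : ∑ j, a j • F (g • t j) = ∑ j, a j • F (t j) := by
  apply perm_induction (P := fun g => ∑ j, a j • F (g • t j) = ∑ j, a j • F (t j))
  · simp only [one_smul]
  · intro g i hg
    rw [← hg]
    have h := hc g i
    have e : ∀ j, a j • c (g • t j) i = a j • F (g • t j) - a j • F ((s i * g) • t j) := by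
      intro j
      rw [← hF, mul_smul, smul_sub]
    rw [Finset.sum_congr rfl fun j _ => e j, Finset.sum_sub_distrib] at h
    exact (sub_eq_zero.mp h).symm

/-- The defect of a linear relation is zero if one permutation changes its sign. -/
lemma defect_zero (hM : ∀ v : M, v + v = 0 → v = 0) {F : X → M} {c : X → Fin n → M}
    (hF : ∀ x i, F x - F (s i • x) = c x i) (a : ι → ℤ) (t : ι → X)
    (hc : ∀ (g : Perm (Fin (n + 1))) (i : Fin n), ∑ j, a j • c (g • t j) i = 0)
    (g : Perm (Fin (n + 1))) (hg : ∑ j, a j • F (g • t j) = - ∑ j, a j • F (t j)) :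
    ∑ j, a j • F (t j) = 0 := by
  apply hM
  have := defect_invariant hF a t hc g
  rw [hg] at this
  nth_rewrite 1 [← this]
  abel

/-- Two terms. -/
lemma defect_pair {F : X → M} {c : X → Fin n → M} (hF : ∀ x i, F x - F (s i • x) = c x i)
    {x y : X} (hc : ∀ (g : Perm (Fin (n + 1))) (i : Fin n), c (g • x) i + c (g • y) i = 0)
    (g : Perm (Fin (n + 1))) : F (g • x) + F (g • y) = F x + F y := by
  have := defect_invariant hF (fun _ : Fin 2 => (1 : ℤ)) ![x, y] (fun g i => by
    simpa [Fin.sum_univ_two] using hc g i) g
  simpa [Fin.sum_univ_two] using this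

/-- Two terms, difference. -/
lemma defect_eq {F : X → M} {c : X → Fin n → M} (hF : ∀ x i, F x - F (s i • x) = c x i)
    {x y : X} (hc : ∀ (g : Perm (Fin (n + 1))) (i : Fin n), c (g • x) i = c (g • y) i)
    (g : Perm (Fin (n + 1))) : F (g • x) - F (g • y) = F x - F y := by
  have := defect_invariant hF ![(1 : ℤ), -1] ![x, y] (fun g i => by
    simpa [Fin.sum_univ_two, ← sub_eq_add_neg] using sub_eq_zero.mpr (hc g i)) g
  simpa [Fin.sum_univ_two, ← sub_eq_add_neg] using this

/-- Three terms. -/
lemma defect_triple {F : X → M} {c : X → Fin n → M} (hF : ∀ x i, F x - F (s i • x) = c x i)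
    {x y z : X}
    (hc : ∀ (g : Perm (Fin (n + 1))) (i : Fin n), c (g • x) i - c (g • y) i + c (g • z) i = 0)
    (g : Perm (Fin (n + 1))) : F (g • x) - F (g • y) + F (g • z) = F x - F y + F z := by
  have := defect_invariant hF ![(1 : ℤ), -1, 1] ![x, y, z] (fun g i => by
    simpa [Fin.sum_univ_three, sub_eq_add_neg] using hc g i) g
  simpa [Fin.sum_univ_three, sub_eq_add_neg] using this

end Defect

end Pool.Agent.SWT49
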